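import Mathlib

/-!
Algebraic closure operator on a field, generic constants, small sets of points,
Nullstellensatz and lying over for points with values in an algebraically closed field.
-/

set_option autoImplicit false

namespace Pool.Agent.P.MP_e35cb8_ag.Ms

open Cardinal Polynomial

section acl

variable {Ω : Type*} [Field Ω]

/-- the matroid of algebraic independence over the prime ring -/
noncomputable abbrev mat (Ω : Type*) [Field Ω] : Matroid Ω :=
  AlgebraicIndependent.matroid (⊥ : Subring Ω) Ω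

theorem mem_mat {T : Set Ω} {x : Ω} :
    x ∈ (mat Ω).closure T ↔ IsAlgebraic (Algebra.adjoin (⊥ : Subring Ω) T) x := by
  rw [AlgebraicIndependent.matroid_closure_eq]; rfl

/-- the elements algebraic over the subring generated by `T` -/
noncomputable def acl (T : Set Ω) : Subfield Ω where
  carrier := (mat Ω).closure T
  mul_mem' := fun ha hb => mem_mat.2 ((mem_mat.1 ha).mul (mem_mat.1 hb))
  one_mem' := mem_mat.2 isAlgebraic_one
  add_mem' := fun ha hb => mem_mat.2 ((mem_mat.1 ha).add (mem_mat.1 hb))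
  zero_mem' := mem_mat.2 isAlgebraic_zero
  neg_mem' := fun ha => mem_mat.2 (mem_mat.1 ha).neg
  inv_mem' := fun _ ha => mem_mat.2 (mem_mat.1 ha).inv

theorem subset_acl (T : Set Ω) : T ⊆ acl T := (mat Ω).subset_closure T (Set.subset_univ _)

theorem acl_le {T U : Set Ω} (h : T ⊆ acl U) : acl T ≤ acl U :=
  (mat Ω).closure_subset_closure_of_subset_closure h

theorem acl_mono {T U : Set Ω} (h : T ⊆ U) : acl T ≤ acl U := acl_le (h.trans (subset_acl U))

theorem acl_exchange {T : Set Ω} {e f : Ω} (he : e ∉ acl T) (h : e ∈ acl (insert f T)) :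
    f ∈ acl (insert e T) := (mat Ω).mem_closure_insert he h

theorem acl_countable {T : Set Ω} (hT : T.Countable) : (acl T : Set Ω).Countable := by
  have h0 : Countable (⊥ : Subring Ω) := by
    have : ((⊥ : Subring Ω) : Set Ω).Countable := by
      rw [Subring.coe_bot]; exact Set.countable_range _
    exact this.to_subtype
  haveI : Countable (Algebra.adjoin (⊥ : Subring Ω) T) := by
    rw [← Cardinal.mk_le_aleph0_iff]
    refine (Algebra.cardinalMk_adjoin_le _ _).trans (max_le (max_le ?_ ?_) le_rfl)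
    · exact Cardinal.mk_le_aleph0_iff.2 h0
    · exact Cardinal.le_aleph0_iff_set_countable.2 hT
  exact (Algebraic.countable (Algebra.adjoin (⊥ : Subring Ω) T) Ω).mono fun x hx => mem_mat.1 hx

theorem acl_root {S : Type*} [CommRing S] {T : Set Ω} (χ : S →+* Ω) {p : S[X]} (hp : p.Monic)
    (hc : ∀ j, χ (p.coeff j) ∈ acl T) {x : Ω} (hx : p.eval₂ χ x = 0) : x ∈ acl T := by
  refine acl_le (T := (acl T : Set Ω)) subset_rfl (mem_mat.2 ?_)
  set E := Algebra.adjoin (⊥ : Subring Ω) (acl T : Set Ω)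
  have hl : p.map χ ∈ lifts (algebraMap E Ω) := by
    rw [lifts_iff_coeff_lifts]
    intro j
    rw [coeff_map]
    exact ⟨⟨_, Algebra.subset_adjoin (hc j)⟩, rfl⟩
  obtain ⟨q, hq, -, hqm⟩ := lifts_and_degree_eq_and_monic hl (hp.map χ)
  refine IsIntegral.isAlgebraic ⟨q, hqm, ?_⟩
  rw [eval₂_eq_eval_map, hq, ← eval₂_eq_eval_map, hx]

theorem exchange_step {T : Set Ω} {e : Ω} (he : e ∉ acl T) (Z : Finset Ω)
    (h : e ∈ acl (T ∪ Z)) :
    ∃ Z' : Finset Ω, Z'.card + 1 ≤ Z.card ∧ (Z : Set Ω) ⊆ acl (insert e T ∪ Z') := by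
  classical
  induction Z using Finset.induction_on with
  | empty => exact (he (by simpa using h)).elim
  | insert f Z hf ih =>
    by_cases h1 : e ∈ acl (T ∪ Z)
    · obtain ⟨Z', hc, hZ⟩ := ih h1
      refine ⟨insert f Z', ?_, ?_⟩
      · rw [Finset.card_insert_of_notMem hf]
        have := Finset.card_insert_le f Z'
        omega
      · rw [Finset.coe_insert, Finset.coe_insert, Set.insert_subset_iff]
        exact ⟨subset_acl _ (Or.inr (Or.inl rfl)), hZ.trans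
          (acl_mono (Set.union_subset_union_right _ (Set.subset_insert _ _)))⟩
    · refine ⟨Z, by rw [Finset.card_insert_of_notMem hf], ?_⟩
      rw [Finset.coe_insert, Set.union_insert] at h
      rw [Finset.coe_insert, Set.insert_subset_iff, Set.insert_union]
      exact ⟨acl_exchange h1 h, fun x hx => subset_acl _ (Or.inr (Or.inr hx))⟩

variable {k : Type*} [Field k] [Algebra k Ω]

theorem gen_fin [Uncountable k] (p : ℕ) (T : Set Ω) (hT : T.Countable) :
    ∃ θ : Fin p → k, ∀ Z : Finset Ω, (∀ i, algebraMap k Ω (θ i) ∈ acl (T ∪ Z)) →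
      ∃ Z' : Finset Ω, Z'.card + p ≤ Z.card ∧
        (Z : Set Ω) ⊆ acl ((T ∪ Set.range fun i => algebraMap k Ω (θ i)) ∪ Z') := by
  induction p generalizing T with
  | zero => exact ⟨Fin.elim0, fun Z _ => ⟨Z, le_rfl, fun x hx => subset_acl _ (Or.inr hx)⟩⟩
  | succ p ih =>
    obtain ⟨e, he⟩ : ∃ e : k, algebraMap k Ω e ∉ acl T := by
      by_contra hcon
      push Not at hcon
      have h1 : ((algebraMap k Ω) ⁻¹' (acl T : Set Ω)).Countable :=
        (acl_countable hT).preimage (algebraMap k Ω).injective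
      exact Set.not_countable_univ (h1.mono fun x _ => hcon x)
    obtain ⟨θ, hθ⟩ := ih (insert (algebraMap k Ω e) T) (hT.insert _)
    refine ⟨Fin.cons e θ, fun Z hZ => ?_⟩
    obtain ⟨Z1, hc1, h1⟩ := exchange_step he Z (hZ 0)
    have h2 : acl (T ∪ Z) ≤ acl (insert (algebraMap k Ω e) T ∪ Z1) :=
      acl_le (Set.union_subset (fun x hx => subset_acl _ (Or.inl (Or.inr hx))) h1)
    obtain ⟨Z2, hc2, h3⟩ := hθ Z1 fun i => h2 (hZ i.succ)
    refine ⟨Z2, by omega, h1.trans (acl_le (Set.union_subset ?_ (h3.trans (acl_mono ?_))))⟩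
    · rintro x (rfl | hx)
      · exact subset_acl _ (Or.inl (Or.inr ⟨0, rfl⟩))
      · exact subset_acl _ (Or.inl (Or.inl hx))
    · refine Set.union_subset_union_left _ ?_
      rintro x ((rfl | hx) | ⟨i, rfl⟩)
      · exact Or.inr ⟨0, rfl⟩
      · exact Or.inl hx
      · exact Or.inr ⟨i.succ, rfl⟩

theorem gen_exists [Uncountable k] (κ : Type*) [Fintype κ] (T : Set Ω) (hT : T.Countable) :
    ∃ θ : κ → k, ∀ Z : Finset Ω, (∀ i, algebraMap k Ω (θ i) ∈ acl (T ∪ Z)) →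
      ∃ Z' : Finset Ω, Z'.card + Fintype.card κ ≤ Z.card ∧
        (Z : Set Ω) ⊆ acl ((T ∪ Set.range fun i => algebraMap k Ω (θ i)) ∪ Z') := by
  obtain ⟨θ, hθ⟩ := gen_fin (k := k) (Fintype.card κ) T hT
  let e := Fintype.equivFin κ
  refine ⟨fun i => θ (e i), fun Z hZ => ?_⟩
  obtain ⟨Z', hc, h⟩ := hθ Z fun i => by simpa using hZ (e.symm i)
  refine ⟨Z', hc, h.trans (acl_mono (Set.union_subset_union_left _
    (Set.union_subset_union_right _ ?_)))⟩
  rintro _ ⟨i, rfl⟩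
  exact ⟨e.symm i, by simp⟩

/-- every point of `Z` is defined over a field of transcendence degree at most `δ` -/
def Small {S : Type*} [CommRing S] (δ : ℕ) (Z : Set (S →+* Ω)) : Prop :=
  ∀ W : Set S, W.Countable → ∃ T : Set Ω, T.Countable ∧
    ∀ χ ∈ Z, ∃ F : Finset Ω, F.card ≤ δ ∧ ∀ w ∈ W, χ w ∈ acl (T ∪ F)

theorem Small.mono {S : Type*} [CommRing S] {δ : ℕ} {Z Z' : Set (S →+* Ω)} (h : Small δ Z)
    (hZ : Z' ⊆ Z) : Small δ Z' := fun W hW =>
  let ⟨T, hT, h1⟩ := h W hW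
  ⟨T, hT, fun χ hχ => h1 χ (hZ hχ)⟩

theorem Small.image {S S0 : Type*} [CommRing S] [CommRing S0] {δ : ℕ} {Z : Set (S →+* Ω)}
    (h : Small δ Z) (φ : S0 →+* S) : Small δ ((fun χ : S →+* Ω => χ.comp φ) '' Z) := by
  intro W hW
  obtain ⟨T, hT, h1⟩ := h (φ '' W) (hW.image _)
  refine ⟨T, hT, ?_⟩
  rintro _ ⟨χ, hχ, rfl⟩
  obtain ⟨F, hF, h2⟩ := h1 χ hχ
  exact ⟨F, hF, fun w hw => h2 _ ⟨w, hw, rfl⟩⟩

theorem Small.integral {S S0 : Type*} [CommRing S] [CommRing S0] {δ : ℕ} {Z : Set (S0 →+* Ω)}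
    (h : Small δ Z) (φ : S0 →+* S) (𝔞 : Ideal S)
    (hint : ((Ideal.Quotient.mk 𝔞).comp φ).IsIntegral) :
    Small δ {χ : S →+* Ω | (∀ a ∈ 𝔞, χ a = 0) ∧ χ.comp φ ∈ Z} := by
  intro W hW
  choose p hp hp' using fun w : S => hint (Ideal.Quotient.mk 𝔞 w)
  obtain ⟨T, hT, h1⟩ := h (⋃ w ∈ W, Set.range (p w).coeff)
    (hW.biUnion fun w _ => Set.countable_range _)
  refine ⟨T, hT, fun χ hχ => ?_⟩
  obtain ⟨F, hF, h2⟩ := h1 _ hχ.2
  refine ⟨F, hF, fun w hw => acl_root (χ.comp φ) (hp w)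
    (fun j => h2 _ (Set.mem_biUnion hw ⟨j, rfl⟩)) ?_⟩
  rw [← hom_eval₂]
  apply hχ.1
  rw [← Ideal.Quotient.eq_zero_iff_mem, hom_eval₂]
  exact hp' w

variable (k) in
/-- the ring map `χ` is a map of `k`-algebras -/
def Pt {S : Type*} [CommRing S] [Algebra k S] (χ : S →+* Ω) : Prop :=
  ∀ c : k, χ (algebraMap k S c) = algebraMap k Ω c

theorem gen_pos [Uncountable k] {S : Type*} [CommRing S] [Algebra k S] {δ : ℕ}
    {Z : Set (S →+* Ω)} (h : Small δ Z) {κ : Type*} [Fintype κ] (hκ : δ < Fintype.card κ)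
    (a : S) (b : κ → S) :
    ∃ l : κ → k, ∀ χ ∈ Z, Pt k χ → (∀ i, χ (b i + algebraMap k S (l i) * a) = 0) → χ a = 0 := by
  obtain ⟨T, hT, h1⟩ := h (insert a (Set.range b)) ((Set.countable_range b).insert a)
  obtain ⟨l, hl⟩ := gen_exists (k := k) κ T hT
  refine ⟨l, fun χ hχ hpt h2 => ?_⟩
  by_contra ha
  obtain ⟨F, hF, h3⟩ := h1 χ hχ
  obtain ⟨Z', hc, -⟩ := hl F fun i => by
    have h4 := h2 i
    rw [map_add, map_mul, hpt] at h4
    have h5 : algebraMap k Ω (l i) = -χ (b i) / χ a := by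
      field_simp
      linear_combination h4
    rw [h5]
    exact div_mem (neg_mem (h3 _ (Or.inr ⟨i, rfl⟩))) (h3 _ (Or.inl rfl))
  omega

theorem coef_set {σ : Type*} (W : Set (MvPolynomial σ k)) (hW : W.Countable) :
    ∃ T : Set Ω, T.Countable ∧ ∀ (χ : MvPolynomial σ k →+* Ω), Pt k χ → ∀ K : Subfield Ω,
      T ⊆ K → (∀ j, χ (MvPolynomial.X j) ∈ K) → ∀ w ∈ W, χ w ∈ K := by
  refine ⟨⋃ w ∈ W, (fun m => algebraMap k Ω (w.coeff m)) '' (w.support : Set _),
    hW.biUnion fun w _ => (w.support.countable_toSet).image _, fun χ hχ K hK hX w hw => ?_⟩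
  rw [w.as_sum, map_sum]
  refine sum_mem fun m hm => ?_
  rw [MvPolynomial.monomial_eq, map_mul, Finsupp.prod, map_prod, ← MvPolynomial.algebraMap_eq, hχ]
  refine mul_mem (hK (Set.mem_biUnion hw ⟨m, hm, rfl⟩)) (prod_mem fun j _ => ?_)
  rw [map_pow]
  exact pow_mem (hX j) _

end acl

section points

variable {Ω : Type*} [Field Ω] [IsAlgClosed Ω]

theorem lying_over {S S0 : Type*} [CommRing S] [CommRing S0] (φ : S0 →+* S) (𝔞 : Ideal S)
    (hint : ((Ideal.Quotient.mk 𝔞).comp φ).IsIntegral) (x : S0 →+* Ω)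
    (hx : ∀ a, φ a ∈ 𝔞 → x a = 0) :
    ∃ χ : S →+* Ω, (∀ a ∈ 𝔞, χ a = 0) ∧ χ.comp φ = x := by
  letI : Algebra S0 (S ⧸ 𝔞) := ((Ideal.Quotient.mk 𝔞).comp φ).toAlgebra
  haveI : Algebra.IsIntegral S0 (S ⧸ 𝔞) := ⟨hint⟩
  haveI : (RingHom.ker x).IsPrime := RingHom.ker_isPrime x
  obtain ⟨Q, -, hQ, hQc⟩ := Ideal.exists_ideal_over_prime_of_isIntegral (S := S ⧸ 𝔞)
    (RingHom.ker x) ⊥ (fun a ha => hx a (Ideal.Quotient.eq_zero_iff_mem.1 ha))
  set P := Q.comap (algebraMap S0 (S ⧸ 𝔞)) with hP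
  let x' : S0 ⧸ P →+* Ω := Ideal.Quotient.lift P x fun a ha => by rwa [hQc] at ha
  have hx' : Function.Injective x' :=
    RingHom.lift_injective_of_ker_le_ideal P _ (by rw [hQc])
  letI : Algebra (S0 ⧸ P) Ω := x'.toAlgebra
  haveI : FaithfulSMul (S0 ⧸ P) Ω := (faithfulSMul_iff_algebraMap_injective _ _).2 hx'
  haveI : FaithfulSMul (S0 ⧸ P) ((S ⧸ 𝔞) ⧸ Q) :=
    (faithfulSMul_iff_algebraMap_injective _ _).2 Ideal.algebraMap_quotient_injective
  let ψ : ((S ⧸ 𝔞) ⧸ Q) →ₐ[S0 ⧸ P] Ω := IsAlgClosed.lift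
  refine ⟨(ψ.toRingHom.comp (Ideal.Quotient.mk Q)).comp (Ideal.Quotient.mk 𝔞), fun a ha => ?_, ?_⟩
  · rw [RingHom.comp_apply, Ideal.Quotient.eq_zero_iff_mem.2 ha, map_zero]
  · ext a
    exact ψ.commutes (Ideal.Quotient.mk P a)

variable (k : Type*) [Field k] [Algebra k Ω]

variable (Ω) in
theorem nss {S : Type*} [CommRing S] [Algebra k S] [Algebra.FiniteType k S] (𝔞 : Ideal S) (b : S)
    (h : ∀ χ : S →+* Ω, Pt k χ → (∀ a ∈ 𝔞, χ a = 0) → χ b = 0) : b ∈ 𝔞.radical := by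
  haveI : IsJacobsonRing S := isJacobsonRing_of_finiteType (A := k)
  rw [Ideal.radical_eq_jacobson, Ideal.jacobson, Ideal.mem_sInf]
  rintro 𝔪 ⟨h1, h2⟩
  letI := Ideal.Quotient.field 𝔪
  haveI := finite_of_finite_type_of_isJacobsonRing k (S ⧸ 𝔪)
  let ψ : (S ⧸ 𝔪) →ₐ[k] Ω := IsAlgClosed.lift
  have := h (ψ.toRingHom.comp (Ideal.Quotient.mk 𝔪)) (fun c => ψ.commutes c) fun a ha => by
    rw [RingHom.comp_apply, Ideal.Quotient.eq_zero_iff_mem.2 (h1 ha), map_zero]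
  rw [← Ideal.Quotient.eq_zero_iff_mem]
  exact ψ.toRingHom.injective (this.trans (map_zero _).symm)

theorem int_one {S : Type*} [CommRing S] {𝔞 : Ideal S[X]} {g : S[X]} (hg : g.Monic) (h : g ∈ 𝔞) :
    ((Ideal.Quotient.mk 𝔞).comp C).IsIntegral :=
  hg.quotient_isIntegral h

theorem int_two {S : Type*} [CommRing S] {𝔞 : Ideal S[X][X]} {g : S[X][X]} (hg : g.Monic)
    (h : g ∈ 𝔞) {p : S[X]} (hp : p.Monic) (h' : C p ∈ 𝔞) :
    ((Ideal.Quotient.mk 𝔞).comp (C.comp C)).IsIntegral := by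
  have h1 := int_one hg h
  have h2 := int_one (𝔞 := 𝔞.comap C) hp h'
  have e : (Ideal.Quotient.mk 𝔞).comp C =
      (Ideal.quotientMap 𝔞 C le_rfl).comp (Ideal.Quotient.mk (𝔞.comap C)) := by
    rw [Ideal.quotientMap_comp_mk]
  rw [e] at h1
  have h3 := RingHom.IsIntegral.trans _ _ h2 (RingHom.IsIntegral.tower_top _ _ h1)
  rwa [← RingHom.comp_assoc, ← e, RingHom.comp_assoc] at h3

end points

end Pool.Agent.P.MP_e35cb8_ag.Ms
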