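import Pool.Agent.P.MP_e35cb8_ag.Ms.Hom
import Pool.Agent.P.MP_e35cb8_ag.Proj

/-!
Triangular coordinates, unimodular rows over polynomial rings, generators of the conormal module.
-/

set_option autoImplicit false

namespace Pool.Agent.P.MP_e35cb8_ag.Ms

open Polynomial

theorem tri {k : Type*} [Field k] {N : ℕ} (v : Fin N → k) (f : MvPolynomial (Fin (N + 1)) k)
    (hf : f ≠ 0) :
    ∃ (e : Fin N → ℕ) (Θ : MvPolynomial (Fin (N + 1)) k ≃ₐ[k] (MvPolynomial (Fin N) k)[X]) (c : k),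
      Θ (MvPolynomial.X 0) = X ∧ (∀ i, Θ (MvPolynomial.X i.succ) =
        X ^ e i + (C (MvPolynomial.C (v i)) * X + C (MvPolynomial.X i))) ∧ (c • Θ f).Monic := by
  set r := f.totalDegree + 2 with hr
  set e : Fin N → ℕ := fun i => r ^ ((i : ℕ) + 1) with he
  have he2 : ∀ i, 1 < e i := fun i =>
    lt_of_lt_of_le (by omega : 1 < r) (Nat.le_self_pow (by omega) r)
  let G : Fin (N + 1) → (MvPolynomial (Fin N) k)[X] := Fin.cons X fun i =>
    X ^ e i + (C (MvPolynomial.C (v i)) * X + C (MvPolynomial.X i))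
  have hlow : ∀ i, (C (MvPolynomial.C (v i)) * X + C (MvPolynomial.X i) :
      (MvPolynomial (Fin N) k)[X]).degree < (X ^ e i : (MvPolynomial (Fin N) k)[X]).degree := by
    intro i
    refine degree_linear_le.trans_lt ?_
    rw [degree_X_pow]
    exact_mod_cast he2 i
  let Θ' : (MvPolynomial (Fin N) k)[X] →ₐ[k] MvPolynomial (Fin (N + 1)) k :=
    aevalTower (MvPolynomial.aeval fun i : Fin N => (MvPolynomial.X i.succ -
      (MvPolynomial.X 0 ^ e i + MvPolynomial.C (v i) * MvPolynomial.X 0) :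
        MvPolynomial (Fin (N + 1)) k)) (MvPolynomial.X 0)
  have h1 : (MvPolynomial.aeval G).comp Θ' = AlgHom.id _ _ := by
    apply Polynomial.algHom_ext'
    · apply MvPolynomial.algHom_ext
      intro i
      simp [Θ', G, Polynomial.algebraMap_apply]
    · simp [Θ', G]
  have h2 : Θ'.comp (MvPolynomial.aeval G) = AlgHom.id _ _ := by
    apply MvPolynomial.algHom_ext
    intro i
    refine Fin.cases ?_ (fun i => ?_) i
    · simp [Θ', G]
    · simp [Θ', G, ← add_assoc]
  obtain ⟨c, hc⟩ := monic_aeval (r := r) G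
    (fun j => Fin.cases monic_X (fun i => (monic_X_pow _).add_of_left (hlow i)) j)
    (fun j => Fin.cases (by simp [G]) (fun i => by
      simp only [G, Fin.cons_succ]
      rw [natDegree_add_eq_left_of_degree_lt (hlow i), natDegree_X_pow]
      simp [he]) j) f hf (fun m hm j =>
        lt_of_le_of_lt ((MvPolynomial.monomial_le_degreeOf j hm).trans
          (MvPolynomial.degreeOf_le_totalDegree f j)) (by omega))
  exact ⟨e, AlgEquiv.ofAlgHom (MvPolynomial.aeval G) Θ' h1 h2, c, by simp [G],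
    fun i => by simp [G], hc⟩

section

variable {B : Type*} [CommRing B] {ι : Type*} [Fintype ι] [DecidableEq ι]

theorem Rel.mat {𝔞 : Ideal B} {x x' : ι → B} (h : Rel 𝔞 x x') :
    ∃ M M' : Matrix ι ι B, M' * M = 1 ∧ (∀ i j, M i j - (1 : Matrix ι ι B) i j ∈ 𝔞) ∧
      M.mulVec x = x' := by
  obtain ⟨e, he, h1⟩ := h
  refine ⟨LinearMap.toMatrix' e.toLinearMap, LinearMap.toMatrix' e.symm.toLinearMap, ?_,
    fun i j => ?_, ?_⟩
  · rw [← LinearMap.toMatrix'_comp]; simp
  · have := he (Pi.single j 1) i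
    simpa [LinearMap.toMatrix'_apply, Matrix.one_apply, Pi.single_apply] using this
  · rw [LinearMap.toMatrix'_mulVec]; exact h1

theorem Rel.map {B' : Type*} [CommRing B'] (ψ : B →+* B') {𝔞 : Ideal B} {x x' : ι → B}
    (h : Rel 𝔞 x x') : Rel ⊤ (fun i => ψ (x i)) fun i => ψ (x' i) := by
  obtain ⟨M, M', h1, -, h2⟩ := h.mat
  have h3 : M'.map ψ * M.map ψ = 1 := by
    rw [← Matrix.map_mul, h1, Matrix.map_one _ (map_zero ψ) (map_one ψ)]
  refine ⟨Matrix.toLin'OfInv h3 (mul_eq_one_comm.1 h3), fun _ _ => trivial, ?_⟩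
  funext i
  rw [← h2, RingHom.map_mulVec]
  rfl

end

theorem reach_mv {k : Type*} [Field k] [Infinite k] {d m : ℕ} (hm : 1 ≤ m)
    (v : Fin (m + 1) → MvPolynomial (Fin (d + 1)) k)
    (ℓ : (Fin (m + 1) → MvPolynomial (Fin (d + 1)) k) →ₗ[MvPolynomial (Fin (d + 1)) k]
      MvPolynomial (Fin (d + 1)) k) (hℓ : ℓ v = 1) : Reach v (Fin.cons 1 0) := by
  classical
  obtain ⟨i0, hi0⟩ : ∃ i, v i ≠ 0 := by
    by_contra hcon
    push Not at hcon
    rw [funext hcon] at hℓ
    exact zero_ne_one ((map_zero ℓ).symm.trans hℓ)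
  haveI : Nontrivial (Fin (m + 1)) := Fin.nontrivial_iff_two_le.2 (by omega)
  obtain ⟨i1, hi1⟩ := exists_ne i0
  obtain ⟨-, Θ, c, -, -, hc⟩ := tri 0 (v i0) hi0
  have hc0 : c ≠ 0 := by
    rintro rfl
    exact hc.ne_zero (zero_smul _ _)
  have r1 := Rel.blk (𝔞 := ⊤) hi1.symm (p := MvPolynomial.C c) (q := 0) (p' := 0)
    (q' := MvPolynomial.C c⁻¹) (by rw [← map_mul, mul_inv_cancel₀ hc0]; simp) trivial trivial
    trivial trivial v
  set v1 := blk i0 i1 (MvPolynomial.C c) 0 0 (MvPolynomial.C c⁻¹) v with hv1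
  have hone : (1 : MvPolynomial (Fin (d + 1)) k) ∈ Ideal.span (Set.range v1) := by
    obtain ⟨e, -, he⟩ := r1
    have h1 : (ℓ ∘ₗ e.symm.toLinearMap) v1 = 1 := by rw [← he]; simpa using hℓ
    rw [← h1, LinearMap.pi_apply_eq_sum_univ]
    exact sum_mem fun i _ => Ideal.mul_mem_right _ _ (Ideal.subset_span ⟨i, rfl⟩)
  have hmon : (Θ (v1 i0)).Monic := by
    rw [hv1, blk_apply, if_pos rfl, zero_mul, add_zero, ← MvPolynomial.smul_eq_C_mul, map_smul]
    exact hc
  obtain ⟨j, hj⟩ := hom_rel k (fun i => Θ (v1 i))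
    (fun i => if i = i0 then (Θ (v1 i0)).natDegree else ∑ i, (Θ (v1 i)).natDegree) hi1.symm hmon
    (by simp) (fun i => by
      split_ifs with h
      · rw [h]
      · exact Finset.single_le_sum (f := fun i => (Θ (v1 i)).natDegree)
          (fun _ _ => Nat.zero_le _) (Finset.mem_univ i))
    (fun i hi => by simp [hi, hi1]) 1 (by
      have := Ideal.mem_map_of_mem Θ hone
      rwa [map_one, Ideal.map_span, ← Set.range_comp] at this)
  have r2 := (hj 1).map Θ.symm.toRingEquiv.toRingHom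
  have e1 : (fun i => Θ.symm.toRingEquiv.toRingHom (Θ (v1 i))) = v1 :=
    funext fun i => Θ.symm_apply_apply _
  rw [e1] at r2
  set w := fun i => Θ.symm.toRingEquiv.toRingHom (sbs (1 ^ j * 1)
    (if i = i0 then (Θ (v1 i0)).natDegree else ∑ i, (Θ (v1 i)).natDegree) (Θ (v1 i))) with hw
  have hw0 : w i0 = 1 := by
    simp [hw, sbs, hg_zero_left, hmon.coeff_natDegree]
  obtain ⟨e, -, he⟩ := r1.trans r2
  refine Reach.trans ⟨e, he⟩ ?_
  rw [← Fin.cons_self_tail w]
  refine Reach.trans ?_ (reach_one (Fin.tail w))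
  revert hw0
  refine Fin.cases (fun h => ?_) (fun i h => ?_) i0
  · rw [h]; exact ⟨LinearEquiv.refl _ _, rfl⟩
  · refine reach_head _ _ _ ?_
    have : Ideal.span (Set.range (Fin.tail w)) = ⊤ :=
      (Ideal.eq_top_iff_one _).2 (Ideal.subset_span ⟨i, h⟩)
    rw [this]; trivial

theorem compl {B : Type*} [CommRing B]
    (hB : ∀ m : ℕ, 1 ≤ m → ∀ (v : Fin (m + 1) → B) (ℓ : (Fin (m + 1) → B) →ₗ[B] B), ℓ v = 1 →
      Reach v (Fin.cons 1 0)) {n : ℕ} (hn : 1 ≤ n) (p : ℕ) (vs : Fin p → Fin (n + p) → B)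
    (ℓs : Fin p → (Fin (n + p) → B) →ₗ[B] B) (h : ∀ i j, ℓs i (vs j) = if i = j then 1 else 0) :
    ∃ ι : (Fin n → B) →ₗ[B] (Fin (n + p) → B), ∀ x, ∃ (t : Fin p → B) (y : Fin n → B),
      x = ∑ j, t j • vs j + ι y := by
  induction p with
  | zero => exact ⟨LinearMap.id, fun x => ⟨0, x, by simp⟩⟩
  | succ p ih =>
    obtain ⟨ι1, h1⟩ := cut (n := n + p) (vs 0) (hB (n + p) (by omega) (vs 0) (ℓs 0) (by simp [h]))
    choose s y hy using fun j : Fin p => h1 (vs j.succ)
    have e1 : ∀ j, ι1 (y j) = vs j.succ - s j • vs 0 := fun j => by rw [hy j]; simp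
    obtain ⟨ι2, h2⟩ := ih y (fun i => ℓs i.succ ∘ₗ ι1) fun i j => by
      rw [LinearMap.comp_apply, e1, map_sub, map_smul, h, h]; simp
    refine ⟨ι1 ∘ₗ ι2, fun x => ?_⟩
    obtain ⟨t0, z, rfl⟩ := h1 x
    obtain ⟨t, y', rfl⟩ := h2 z
    refine ⟨Fin.cons (t0 - ∑ j, t j * s j) t, y', ?_⟩
    simp only [Fin.sum_univ_succ, Fin.cons_zero, Fin.cons_succ, map_add, map_sum, map_smul, e1,
      LinearMap.comp_apply, smul_sub, Finset.sum_sub_distrib, sub_smul, Finset.sum_smul, mul_smul]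
    abel

open MvPolynomial in
theorem exists_gen {k : Type*} [Field k] [Infinite k] {n d : ℕ} (hn : 1 ≤ n)
    (α : MvPolynomial (Fin (n + (d + 1))) k →ₐ[k] MvPolynomial (Fin (d + 1)) k)
    (ρ : MvPolynomial (Fin (d + 1)) k →ₐ[k] MvPolynomial (Fin (n + (d + 1))) k)
    (hρ : ∀ β, α (ρ β) = β) :
    ∃ ε : Fin n → MvPolynomial (Fin (n + (d + 1))) k, (∀ i, α (ε i) = 0) ∧
      RingHom.ker α ≤ Ideal.span (Set.range ε) ⊔ RingHom.ker α ^ 2 := by
  set I := RingHom.ker α with hI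
  have hρI : ∀ r, α (r - ρ (α r)) = 0 := fun r => by rw [map_sub, hρ, sub_self]
  let F : Fin (n + (d + 1)) → MvPolynomial (Fin (n + (d + 1))) k := fun i => X i - ρ (α (X i))
  let L : (Fin (n + (d + 1)) → MvPolynomial (Fin (d + 1)) k) → MvPolynomial (Fin (n + (d + 1))) k :=
    fun x => ∑ i, ρ (x i) * F i
  have hL : ∀ x, α (L x) = 0 := fun x => by simp [L, F, hρ]
  have hLadd : ∀ x y, L (x + y) = L x + L y := fun x y => by
    simp [L, add_mul, Finset.sum_add_distrib]
  have hLsum : ∀ {κ : Type} [Fintype κ] (t : κ → MvPolynomial (Fin (d + 1)) k)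
      (x : κ → Fin (n + (d + 1)) → MvPolynomial (Fin (d + 1)) k),
      L (∑ j, t j • x j) = ∑ j, ρ (t j) * L (x j) := by
    intro κ _ t x
    simp only [L, Finset.sum_apply, Pi.smul_apply, smul_eq_mul, map_sum, map_mul, Finset.sum_mul,
      Finset.mul_sum, mul_assoc]
    exact Finset.sum_comm
  let g : MvPolynomial (Fin (n + (d + 1))) k → Fin (n + (d + 1)) → MvPolynomial (Fin (d + 1)) k :=
    fun r i => α (pderiv i r)
  have hA : ∀ r, r - ρ (α r) - L (g r) ∈ I ^ 2 := by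
    intro r
    refine mem_of_hom _ fun S _ μ hμ => ?_
    have := chain (μ.comp (ρ.toRingHom.comp α.toRingHom)) (fun r => μ (r - ρ (α r)))
      (by intro r s; simp only [map_add, map_sub]; ring)
      (by intro c; simp)
      (by
        intro r s
        have h1 : μ ((r - ρ (α r)) * (s - ρ (α s))) = 0 := hμ _ (mul_mem_sq (hρI _) (hρI _))
        change μ _ = μ (ρ (α r)) * _ + μ (ρ (α s)) * _
        simp only [map_mul, map_sub] at h1 ⊢
        linear_combination h1) r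
    rw [map_sub, this, sub_eq_zero]
    simp only [L, map_sum, map_mul]
    rfl
  have hB : ∀ (l : Fin (d + 1)) r, pderiv l (α r) = ∑ i, g r i * pderiv l (α (X i)) := by
    intro l r
    exact chain α.toRingHom (fun r => pderiv l (α r)) (by intro r s; simp only [map_add])
      (by intro c; simp)
      (by
        intro r s
        change _ = α r * _ + α s * _
        simp only [map_mul, Derivation.leibniz, smul_eq_mul]) r
  have hE : ∀ β, L (g (ρ β)) ∈ I ^ 2 := by
    intro β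
    have := hA (ρ β)
    rw [hρ, sub_self, zero_sub] at this
    simpa using neg_mem this
  obtain ⟨ι, hι⟩ := compl (fun m hm v ℓ h => reach_mv hm v ℓ h) hn (d + 1)
    (fun j => g (ρ (X j))) (fun l => lin fun i => pderiv l (α (X i))) fun l j => by
      rw [lin_apply]
      simp only [mul_comm (pderiv l _)]
      rw [← hB, hρ, pderiv_X, Pi.single_apply]
      simp only [eq_comm]
  refine ⟨fun i => L (ι (Pi.single i 1)), fun i => hL _, fun f hf => ?_⟩
  obtain ⟨t, y, h⟩ := hι (g f)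
  have h1 := hA f
  rw [(hf : α f = 0), map_zero, sub_zero] at h1
  have h2 : ι y = ∑ i, y i • ι (Pi.single i 1) := by
    rw [LinearMap.pi_apply_eq_sum_univ]
    refine Finset.sum_congr rfl fun i _ => ?_
    congr 2
    funext j
    simp [Pi.single_apply, eq_comm]
  rw [h, hLadd, h2, hLsum, hLsum] at h1
  have h3 : f = (f - (∑ j, ρ (t j) * L (g (ρ (X j))) + ∑ i, ρ (y i) * L (ι (Pi.single i 1)))) +
      ∑ j, ρ (t j) * L (g (ρ (X j))) + ∑ i, ρ (y i) * L (ι (Pi.single i 1)) := by ring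
  rw [h3]
  refine add_mem (Ideal.mem_sup_right (add_mem h1 (sum_mem fun j _ =>
    Ideal.mul_mem_left _ _ (hE _)))) (Ideal.mem_sup_left (sum_mem fun i _ =>
      Ideal.mul_mem_left _ _ (Ideal.subset_span ⟨i, rfl⟩)))

end Pool.Agent.P.MP_e35cb8_ag.Ms
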