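import Pool.Agent.P.MP_e35cb8_ag.Ms.Small

/-!
Specialisation from an uncountable purely transcendental extension to an infinite field.
-/

set_option autoImplicit false

namespace Pool.Agent.P.MP_e35cb8_ag.Ms

open MvPolynomial

theorem ker_eq_span {k σ τ : Type*} [CommRing k] (α : MvPolynomial σ k →ₐ[k] MvPolynomial τ k)
    (ρ : MvPolynomial τ k →ₐ[k] MvPolynomial σ k) (hρ : ∀ β, α (ρ β) = β) :
    Ideal.span (Set.range fun i => X i - ρ (α (X i))) = RingHom.ker α := by
  refine le_antisymm (Ideal.span_le.2 ?_) fun r hr => ?_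
  · rintro _ ⟨i, rfl⟩
    change α _ = 0
    rw [map_sub, hρ, sub_self]
  · set π := Ideal.Quotient.mkₐ k (Ideal.span (Set.range fun i => X i - ρ (α (X i))))
    have : π = π.comp (ρ.comp α) := algHom_ext fun i =>
      Ideal.Quotient.eq.2 (Ideal.subset_span ⟨i, rfl⟩)
    have h := AlgHom.congr_fun this r
    rw [AlgHom.comp_apply, AlgHom.comp_apply, (hr : α r = 0), map_zero, map_zero] at h
    exact Ideal.Quotient.eq_zero_iff_mem.1 h

attribute [local instance] algebraMvPolynomial in
theorem specialise {k : Type*} [Field k] [Infinite k] {σ ι κ : Type*} [Fintype ι] [Fintype κ]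
    (G : ι → MvPolynomial σ k) (f : κ → MvPolynomial σ (FractionRing (MvPolynomial ℝ k)))
    (h : Ideal.span (Set.range f) = Ideal.span
      (Set.range fun i => map (algebraMap k (FractionRing (MvPolynomial ℝ k))) (G i))) :
    ∃ g : κ → MvPolynomial σ k, Ideal.span (Set.range g) = Ideal.span (Set.range G) := by
  set P := MvPolynomial ℝ k
  set K := FractionRing P
  choose a ha using fun j => (Submodule.mem_span_range_iff_exists_fun _).1
    (h ▸ Ideal.subset_span ⟨j, rfl⟩ :
      f j ∈ Ideal.span (Set.range fun i => map (algebraMap k K) (G i)))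
  choose b hb using fun i => (Submodule.mem_span_range_iff_exists_fun _).1
    (h ▸ Ideal.subset_span ⟨i, rfl⟩ : map (algebraMap k K) (G i) ∈ Ideal.span (Set.range f))
  obtain ⟨⟨_, s, hs, rfl⟩, h1⟩ := IsLocalization.exist_integer_multiples_of_finite
    (S := MvPolynomial σ K) ((nonZeroDivisors P).map (C (σ := σ)))
    (Sum.elim (fun p : κ × ι => a p.1 p.2) fun p : ι × κ => b p.1 p.2)
  choose a' ha' using fun j i => h1 (Sum.inl (j, i))
  choose b' hb' using fun i j => h1 (Sum.inr (i, j))
  simp only [Sum.elim_inl, Sum.elim_inr, algebraMap_def, Algebra.smul_def] at ha' hb'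
  have hG : ∀ i, map (algebraMap P K) (map C (G i)) = map (algebraMap k K) (G i) := fun i => by
    rw [map_map]; rfl
  have key : ∀ i, C s * C s * map C (G i) = ∑ j, b' i j * ∑ l, a' j l * map C (G l) := by
    intro i
    apply map_injective (algebraMap P K) (IsFractionRing.injective P K)
    simp only [map_mul, map_sum, ha', hb', hG]
    rw [← hb i, Finset.mul_sum]
    refine Finset.sum_congr rfl fun j _ => ?_
    rw [← ha j]
    simp only [smul_eq_mul, Finset.mul_sum]
    exact Finset.sum_congr rfl fun l _ => by ring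
  obtain ⟨x, hx⟩ : ∃ x : ℝ → k, eval x s ≠ 0 := by
    by_contra hcon
    push Not at hcon
    exact nonZeroDivisors.ne_zero hs (MvPolynomial.funext fun x => by rw [hcon, map_zero])
  have hG' : ∀ i, map (eval x) (map C (G i)) = G i := fun i => by
    have : (eval x).comp C = RingHom.id k := RingHom.ext fun c => by simp
    rw [map_map, this, map_id]
  refine ⟨fun j => ∑ l, map (eval x) (a' j l) * G l, le_antisymm (Ideal.span_le.2 ?_)
    (Ideal.span_le.2 ?_)⟩
  · rintro _ ⟨j, rfl⟩
    exact sum_mem fun l _ => Ideal.mul_mem_left _ _ (Ideal.subset_span ⟨l, rfl⟩)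
  · rintro _ ⟨i, rfl⟩
    have := congrArg (map (eval x)) (key i)
    simp only [map_mul, map_sum, hG', map_C] at this
    have e : G i = C ((eval x s)⁻¹ * (eval x s)⁻¹) * (C (eval x s) * C (eval x s) * G i) := by
      rw [← mul_assoc, ← map_mul, ← map_mul]
      have : (eval x s)⁻¹ * (eval x s)⁻¹ * (eval x s * eval x s) = 1 := by field_simp
      rw [this, map_one, one_mul]
    rw [SetLike.mem_coe, e, this]
    exact Ideal.mul_mem_left _ _ (sum_mem fun j _ =>
      Ideal.mul_mem_left _ _ (Ideal.subset_span ⟨j, rfl⟩))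

theorem main_inf {k : Type*} [Field k] [Infinite k] {n d : ℕ} (h : d + 4 ≤ 2 * n)
    (α : MvPolynomial (Fin (n + d)) k →ₐ[k] MvPolynomial (Fin d) k)
    (hα : Function.Surjective α) :
    ∃ f : Fin n → MvPolynomial (Fin (n + d)) k, Ideal.span (Set.range f) = RingHom.ker α := by
  choose p hp using fun j => hα (X j)
  have hρ : ∀ β, α (aeval p β) = β := by
    have : α.comp (aeval p) = AlgHom.id _ _ := algHom_ext fun j => by simp [hp]
    exact AlgHom.congr_fun this
  rcases d with _ | d
  · exact ⟨_, ker_eq_span α (aeval p) hρ⟩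
  set K := FractionRing (MvPolynomial ℝ k)
  haveI : Uncountable K := ((IsFractionRing.injective (MvPolynomial ℝ k) K).comp
    (X_injective (R := k) (σ := ℝ))).uncountable
  let αK : MvPolynomial (Fin (n + (d + 1))) K →ₐ[K] MvPolynomial (Fin (d + 1)) K :=
    aeval fun i => map (algebraMap k K) (α (X i))
  let ρK : MvPolynomial (Fin (d + 1)) K →ₐ[K] MvPolynomial (Fin (n + (d + 1))) K :=
    aeval fun j => map (algebraMap k K) (p j)
  have h1 : ∀ x, αK (map (algebraMap k K) x) = map (algebraMap k K) (α x) := by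
    have : αK.toRingHom.comp (map (algebraMap k K)) = (map (algebraMap k K)).comp α.toRingHom :=
      ringHom_ext (fun c => by simp [αK]) fun i => by simp [αK]
    exact RingHom.congr_fun this
  have h2 : ∀ x, ρK (map (algebraMap k K) x) = map (algebraMap k K) (aeval p x) := by
    have : ρK.toRingHom.comp (map (algebraMap k K)) =
        (map (algebraMap k K)).comp (aeval p).toRingHom :=
      ringHom_ext (fun c => by simp [ρK]) fun i => by simp [ρK]
    exact RingHom.congr_fun this
  have h3 : ∀ β, αK (ρK β) = β := by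
    have : αK.comp ρK = AlgHom.id _ _ := algHom_ext fun j => by simp [ρK, h1, hp]
    exact AlgHom.congr_fun this
  obtain ⟨f, hf⟩ := main_unc h αK ρK h3
  rw [← ker_eq_span α (aeval p) hρ]
  refine specialise _ f ?_
  rw [hf, ← ker_eq_span αK ρK h3]
  congr 2
  funext i
  rw [map_sub, map_X, ← h2, ← h1, map_X]

end Pool.Agent.P.MP_e35cb8_ag.Ms
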