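import Pool.Agent.P.MP_e35cb8_ag.Ms.Rel

/-!
Homogenisation and the homogeneous form of Suslin's lemma.
-/

set_option autoImplicit false

namespace Pool.Agent.P.MP_e35cb8_ag.Ms

open Polynomial

universe u

section hg

variable {B0 S : Type*} [CommRing B0] [CommRing S]

/-- the degree `D` homogenisation of `b`, evaluated at `(y0, y1)` -/
def hg (φ : B0 →+* S) (D : ℕ) (b : B0[X]) (y0 y1 : S) : S :=
  ∑ j ∈ Finset.range (D + 1), φ (b.coeff j) * y0 ^ (D - j) * y1 ^ j

theorem hg_map {S' : Type*} [CommRing S'] (ψ : S →+* S') (φ : B0 →+* S) (D : ℕ) (b : B0[X])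
    (y0 y1 : S) : ψ (hg φ D b y0 y1) = hg (ψ.comp φ) D b (ψ y0) (ψ y1) := by
  simp [hg]

theorem hg_eval (φ : B0 →+* S) {D : ℕ} {b : B0[X]} (h : b.natDegree ≤ D) (y0 y : S) :
    hg φ D b y0 (y0 * y) = y0 ^ D * b.eval₂ φ y := by
  rw [eval₂_eq_sum_range' φ (Nat.lt_succ_of_le h), Finset.mul_sum]
  refine Finset.sum_congr rfl fun j hj => ?_
  have : j ≤ D := Nat.lt_succ_iff.1 (Finset.mem_range.1 hj)
  rw [← pow_sub_mul_pow y0 this, mul_pow]; ring

theorem hg_zero_left (φ : B0 →+* S) (D : ℕ) (b : B0[X]) (y1 : S) :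
    hg φ D b 0 y1 = φ (b.coeff D) * y1 ^ D := by
  rw [hg, Finset.sum_range_succ, Finset.sum_eq_zero]
  · simp
  · intro j hj
    have : D - j ≠ 0 := by have := Finset.mem_range.1 hj; omega
    simp [this]

theorem hg_zero (φ : B0 →+* S) (D : ℕ) (y0 y1 : S) : hg φ D 0 y0 y1 = 0 := by simp [hg]

theorem hg_add (φ : B0 →+* S) (D : ℕ) (b b' : B0[X]) (y0 y1 : S) :
    hg φ D (b + b') y0 y1 = hg φ D b y0 y1 + hg φ D b' y0 y1 := by
  simp [hg, add_mul, Finset.sum_add_distrib]

theorem hg_sum {ι : Type*} (s : Finset ι) (φ : B0 →+* S) (D : ℕ) (b : ι → B0[X]) (y0 y1 : S) :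
    hg φ D (∑ i ∈ s, b i) y0 y1 = ∑ i ∈ s, hg φ D (b i) y0 y1 := by
  classical
  induction s using Finset.induction_on with
  | empty => simp [hg_zero]
  | insert a s ha ih => rw [Finset.sum_insert ha, Finset.sum_insert ha, hg_add, ih]

theorem hg_C_mul (φ : B0 →+* S) (D : ℕ) (c : B0) (b : B0[X]) (y0 y1 : S) :
    hg φ D (C c * b) y0 y1 = φ c * hg φ D b y0 y1 := by
  simp [hg, Finset.mul_sum, mul_assoc]

theorem hg_le (φ : B0 →+* S) {D D' : ℕ} {b : B0[X]} (h : b.natDegree ≤ D) (h' : D ≤ D')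
    (y0 y1 : S) : hg φ D' b y0 y1 = y0 ^ (D' - D) * hg φ D b y0 y1 := by
  rw [hg, hg, Finset.mul_sum, ← Finset.sum_subset (Finset.range_mono (Nat.succ_le_succ h'))]
  · refine Finset.sum_congr rfl fun j hj => ?_
    have : j ≤ D := Nat.lt_succ_iff.1 (Finset.mem_range.1 hj)
    have e : D' - j = D' - D + (D - j) := by omega
    rw [e, pow_add]; ring
  · intro j _ hj
    rw [coeff_eq_zero_of_natDegree_lt (by rw [Finset.mem_range] at hj; omega)]
    simp

/-- the substitution of Mandal with parameter `u` -/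
noncomputable def sbs (u : B0) (D : ℕ) (b : B0[X]) : B0[X] :=
  hg C D b (1 - C u) ((1 - C u) * X + C u)

theorem sbs_zero {D : ℕ} {b : B0[X]} (h : b.natDegree ≤ D) : sbs 0 D b = b := by
  have := hg_eval C h (1 : B0[X]) X
  rw [eval₂_C_X] at this
  simpa [sbs] using this

theorem sbs_sub {D : ℕ} {b : B0[X]} (h : b.natDegree ≤ D) (u : B0) :
    sbs u D b - b ∈ Ideal.span {C u} := by
  rw [← Ideal.Quotient.eq]
  set π := Ideal.Quotient.mk (Ideal.span {(C u : B0[X])})
  have h0 : π (C u) = 0 := Ideal.Quotient.eq_zero_iff_mem.2 (Ideal.subset_span rfl)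
  conv_rhs => rw [← sbs_zero h]
  simp only [sbs, hg_map, map_add, map_sub, map_mul, h0, map_zero]

/-- the universal substitution -/
noncomputable def usb (D : ℕ) (b : B0[X]) : B0[X][X] :=
  hg (C.comp C) D b (1 - X) ((1 - X) * C X + X)

theorem eval_usb (u : B0) (D : ℕ) (b : B0[X]) : (usb D b).eval (C u) = sbs u D b := by
  rw [← coe_evalRingHom, usb, hg_map, sbs]
  congr 1
  · ext <;> simp
  · simp
  · simp

theorem mem_of_hom {R : Type u} [CommRing R] (𝔞 : Ideal R) {x : R}
    (h : ∀ (S : Type u) [CommRing S] (π : R →+* S), (∀ a ∈ 𝔞, π a = 0) → π x = 0) : x ∈ 𝔞 :=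
  Ideal.Quotient.eq_zero_iff_mem.1
    (h (R ⧸ 𝔞) (Ideal.Quotient.mk 𝔞) fun _ ha => Ideal.Quotient.eq_zero_iff_mem.2 ha)

theorem usb_one {F : B0[X]} (hF : F.Monic) (π : B0[X][X] →+* S) (h0 : π (1 - X) = 0) :
    π (usb F.natDegree F) = π 1 := by
  have hX : π X = 1 := by rw [map_sub, map_one, sub_eq_zero] at h0; exact h0.symm
  rw [usb, hg_map, map_add, map_mul, h0, hX, hg_zero_left, hF.coeff_natDegree]
  simp

theorem usb_core {F w : B0[X]} {D : ℕ} (hw : w.natDegree ≤ D) {r : B0}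
    (hr : C r ∈ Ideal.span {F, w}) (π : B0[X][X] →+* S) (hF0 : π (usb F.natDegree F) = 0)
    (hw0 : π (usb D w) = 0) (a : B0[X][X]) (ha : a * (1 - X) = usb F.natDegree F - 1) :
    π (C (C r)) = 0 := by
  have hu : π (1 - X) * π (-a) = 1 := by
    have := congrArg π ha
    rw [map_mul, map_sub π (usb _ _), hF0, map_one] at this
    rw [map_neg]; linear_combination -this
  let θ := eval₂RingHom (π.comp (C.comp C)) (π (-a) * π ((1 - X) * C X + X))
  have key : ∀ (E : ℕ) (b : B0[X]), b.natDegree ≤ E → π (usb E b) = 0 → θ b = 0 := by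
    intro E b hb h
    have e : π ((1 - X) * C X + X) = π (1 - X) * (π (-a) * π ((1 - X) * C X + X)) := by
      rw [← mul_assoc, hu, one_mul]
    rw [usb, hg_map, e, hg_eval _ hb] at h
    have h2 : (π (-a) * π (1 - X)) ^ E = 1 := by rw [mul_comm, hu, one_pow]
    rw [mul_pow] at h2
    change eval₂ _ _ b = 0
    linear_combination π (-a) ^ E * h -
      (eval₂ (π.comp (C.comp C)) (π (-a) * π ((1 - X) * C X + X)) b) * h2
  obtain ⟨g, h, e⟩ := Ideal.mem_span_pair.1 hr
  have := congrArg θ e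
  rw [map_add, map_mul, map_mul, key _ _ le_rfl hF0, key _ _ hw hw0, mul_zero, mul_zero,
    add_zero] at this
  simpa [θ] using this.symm

theorem usb_mem {F w : B0[X]} (hF : F.Monic) {D : ℕ} (hw : w.natDegree ≤ D) {r : B0}
    (hr : C r ∈ Ideal.span {F, w}) :
    (C (C r) : B0[X][X]) ∈ Ideal.span {usb F.natDegree F, usb D w} := by
  have h1 : usb F.natDegree F - 1 ∈ Ideal.span {(1 - X : B0[X][X])} :=
    mem_of_hom _ fun S _ π h => by
      rw [map_sub, usb_one hF π (h _ (Ideal.subset_span rfl)), sub_self]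
  obtain ⟨a, ha⟩ := Ideal.mem_span_singleton'.1 h1
  exact mem_of_hom _ fun S _ π h => usb_core hw hr π (h _ (Ideal.subset_span (by simp)))
    (h _ (Ideal.subset_span (by simp))) a ha

end hg

theorem avoid {k Ω ι : Type*} [Field k] [Infinite k] [Field Ω] [Algebra k Ω] [Fintype ι]
    (i0 i1 : ι) (R : Finset Ω) (c : Ω → ι → Ω) (h : ∀ ρ ∈ R, ∃ i, i ≠ i0 ∧ c ρ i ≠ 0) :
    ∃ μ : ι → k, μ i0 = 0 ∧ μ i1 = 0 ∧
      ∀ ρ ∈ R, c ρ i1 + ∑ i, algebraMap k Ω (μ i) * c ρ i ≠ 0 := by
  classical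
  let Q : Ω → MvPolynomial ι Ω := fun ρ => MvPolynomial.C (c ρ i1) +
    ∑ i, if i = i0 ∨ i = i1 then 0 else MvPolynomial.X i * MvPolynomial.C (c ρ i)
  have hQ : ∀ ρ x, MvPolynomial.eval x (Q ρ) =
      c ρ i1 + ∑ i, (if i = i0 ∨ i = i1 then 0 else x i) * c ρ i := by
    intro ρ x
    simp only [Q, map_add, map_sum, MvPolynomial.eval_C]
    congr 1
    refine Finset.sum_congr rfl fun i _ => ?_
    split_ifs <;> simp
  have hP : ∏ ρ ∈ R, Q ρ ≠ 0 := by
    refine Finset.prod_ne_zero_iff.2 fun ρ hρ h0 => ?_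
    obtain ⟨i, hi, hc⟩ := h ρ hρ
    have h1 := hQ ρ 0
    rw [h0] at h1
    have h2 : c ρ i1 = 0 := by simpa using h1.symm
    have h3 : i ≠ i1 := fun e => hc (e ▸ h2)
    have h4 := hQ ρ (Pi.single i 1)
    rw [h0, h2, Finset.sum_eq_single i] at h4
    · simp [hi, h3] at h4
      exact hc h4.symm
    · intro j _ hj; simp [hj]
    · simp
  by_contra hcon
  apply hP
  refine MvPolynomial.funext_set (fun _ => Set.range (algebraMap k Ω))
    (fun _ => Set.infinite_range_of_injective (algebraMap k Ω).injective) fun x hx => ?_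
  choose m hm using fun i => hx i (Set.mem_univ i)
  by_contra h0
  apply hcon
  refine ⟨fun i => if i = i0 ∨ i = i1 then 0 else m i, by simp, by simp, fun ρ hρ h1 => h0 ?_⟩
  rw [map_prod, map_zero]
  refine Finset.prod_eq_zero hρ ?_
  rw [hQ]
  refine Eq.trans ?_ h1
  congr 1
  refine Finset.sum_congr rfl fun i _ => ?_
  beta_reduce
  split_ifs <;> simp [hm]

theorem hom_rel (k : Type*) [Field k] [Infinite k] {B0 : Type*} [CommRing B0] [IsDomain B0]
    [Algebra k B0] [Algebra.FiniteType k B0] {ι : Type*} [Fintype ι] [DecidableEq ι]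
    (v : ι → B0[X]) (D : ι → ℕ) {i0 i1 : ι} (h01 : i0 ≠ i1) (hmon : (v i0).Monic)
    (hD0 : (v i0).natDegree = D i0) (hD : ∀ i, (v i).natDegree ≤ D i)
    (hD1 : ∀ i, i ≠ i0 → D i ≤ D i1) (s0 : B0) (hs : C s0 ∈ Ideal.span (Set.range v)) :
    ∃ j : ℕ, ∀ z : B0, Rel (Ideal.span {C z}) v fun i => sbs (s0 ^ j * z) (D i) (v i) := by
  classical
  let W : B0 → ι → B0[X] := fun u i => sbs u (D i) (v i)
  let 𝔧 : Ideal B0 :=
    { carrier := {r | ∀ u z : B0, Rel (Ideal.span {C z}) (W u) (W (u + r * z))}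
      zero_mem' := fun u z => by simpa using Rel.refl _ _
      add_mem' := by
        intro r r' hr hr' u z
        have := (hr' u z).trans (hr (u + r' * z) z)
        have e : u + r' * z + r * z = u + (r + r') * z := by ring
        rwa [e] at this
      smul_mem' := by
        intro c r hr u z
        have := (hr u (c * z)).mono (𝔟 := Ideal.span {C z})
          (Ideal.span_singleton_le_span_singleton.2 ⟨C c, by rw [map_mul, mul_comm]⟩)
        have e : u + r * (c * z) = u + (c • r) * z := by rw [smul_eq_mul]; ring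
        rwa [e] at this }
  let w : (ι → k) → B0[X] := fun μ => v i1 + ∑ i, C (algebraMap k B0 (μ i)) * v i
  have key : ∀ μ : ι → k, μ i0 = 0 → μ i1 = 0 → ∀ r : B0, C r ∈ Ideal.span {v i0, w μ} →
      r ∈ 𝔧 := by
    intro μ hμ0 hμ1 r hr u z
    have hw : (w μ).natDegree ≤ D i1 := by
      refine natDegree_add_le_of_degree_le (hD i1) (natDegree_sum_le_of_forall_le _ _ fun i _ => ?_)
      by_cases hi : i = i0
      · simp [hi, hμ0]
      · exact (natDegree_C_mul_le _ _).trans ((hD i).trans (hD1 i hi))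
    let V : ι → B0[X][X] := fun i => usb (D i) (v i)
    let m : ι → B0[X][X] := fun i => C (C (algebraMap k B0 (μ i))) * (1 - X) ^ (D i1 - D i)
    have hW : usb (D i1) (w μ) = V i1 + lin m V := by
      simp only [usb, w, hg_add, hg_sum, hg_C_mul, V, lin_apply, m]
      congr 1
      refine Finset.sum_congr rfl fun i _ => ?_
      by_cases hi : i = i0
      · simp [hi, hμ0]
      · rw [hg_le _ (hD i) (hD1 i hi), mul_assoc]; rfl
    obtain ⟨G, H, e⟩ := Ideal.mem_span_pair.1 (usb_mem hmon hw hr)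
    rw [hW, hD0] at e
    have hev : ∀ b : B0, C r = W b i0 * G.eval (C b) +
        (W b i1 + lin (fun i => (m i).eval (C b)) (W b)) * H.eval (C b) := by
      intro b
      have := congrArg (eval (C b)) e
      simp only [eval_add, eval_mul, eval_C, lin_apply, eval_finsetSum, V, eval_usb] at this
      rw [← this, lin_apply]; ring
    have hd : ∀ p : B0[X][X], C r * C z ∣ p.eval (C (u + r * z)) - p.eval (C u) := by
      intro p
      have e : (C (u + r * z) - C u : B0[X]) = C r * C z := by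
        rw [map_add, add_sub_cancel_left, map_mul]
      exact e ▸ sub_dvd_eval_sub (C (u + r * z)) (C u) p
    refine suslin_move h01 (W u) (W (u + r * z)) _ _ (by simp [m, hμ0]) (by simp [m, hμ1])
      (by simp [m, hμ0]) (by simp [m, hμ1]) _ _ _ _ (C r) (C z) (hev u) (hev _) (fun i => ?_)
      (fun i => hd _) (hd _) (hd _)
    have := hd (V i)
    rwa [eval_usb, eval_usb] at this
  have hrad : s0 ∈ 𝔧.radical := by
    refine nss (AlgebraicClosure k) k 𝔧 s0 fun x hx h0 => ?_
    by_contra hs0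
    obtain ⟨μ, hμ0, hμ1, hμ⟩ := avoid (k := k) i0 i1 ((v i0).map x).roots.toFinset
      (fun ρ i => (v i).eval₂ x ρ) (by
        intro ρ hρ
        rw [Multiset.mem_toFinset, mem_roots (hmon.map x).ne_zero, IsRoot.def, eval_map] at hρ
        by_contra hcon
        push Not at hcon
        have : Ideal.span (Set.range v) ≤ RingHom.ker (eval₂RingHom x ρ) := by
          rw [Ideal.span_le]
          rintro _ ⟨i, rfl⟩
          by_cases hi : i = i0
          · rw [hi]; exact hρ
          · exact hcon i hi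
        exact hs0 (by simpa using this hs))
    obtain ⟨χ, h1, h2⟩ := lying_over C (Ideal.span {v i0, w μ})
      (int_one hmon (Ideal.subset_span (by simp))) x fun r hr => h0 r (key μ hμ0 hμ1 r hr)
    have hχ : ∀ p, χ p = p.eval₂ x (χ X) := by
      intro p
      rw [← h2, ← hom_eval₂, eval₂_C_X]
    refine hμ (χ X) ?_ ?_
    · rw [Multiset.mem_toFinset, mem_roots (hmon.map x).ne_zero, IsRoot.def, eval_map, ← hχ]
      exact h1 _ (Ideal.subset_span (by simp))
    · have := h1 (w μ) (Ideal.subset_span (by simp))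
      simp only [w, map_add, map_sum, map_mul] at this
      rw [← this, ← hχ]
      congr 1
      refine Finset.sum_congr rfl fun i _ => ?_
      rw [← hχ, ← hx, ← h2]; rfl
  obtain ⟨j, hj⟩ := hrad
  refine ⟨j, fun z => ?_⟩
  have := hj 0 z
  rw [zero_add] at this
  have e : W 0 = v := funext fun i => sbs_zero (hD i)
  rwa [e] at this

end Pool.Agent.P.MP_e35cb8_ag.Ms
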