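import Pool.Agent.P.MP_e35cb8_ag.Ms.Acl

/-!
Vectors related by an invertible linear map congruent to the identity, and Suslin's move.
-/

set_option autoImplicit false

namespace Pool.Agent.P.MP_e35cb8_ag.Ms

open Polynomial

variable {B : Type*} [CommRing B] {ι : Type*} [Fintype ι] [DecidableEq ι]

/-- `x'` is the image of `x` under an automorphism congruent to the identity modulo `𝔞` -/
def Rel (𝔞 : Ideal B) (x x' : ι → B) : Prop :=
  ∃ e : (ι → B) ≃ₗ[B] (ι → B), (∀ y i, e y i - y i ∈ 𝔞) ∧ e x = x'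

omit [Fintype ι] [DecidableEq ι] in
theorem Rel.refl (𝔞 : Ideal B) (x : ι → B) : Rel 𝔞 x x :=
  ⟨LinearEquiv.refl _ _, fun _ _ => by simp, rfl⟩

omit [Fintype ι] [DecidableEq ι] in
theorem Rel.trans {𝔞 : Ideal B} {x y z : ι → B} (h : Rel 𝔞 x y) (h' : Rel 𝔞 y z) : Rel 𝔞 x z := by
  obtain ⟨e, he, rfl⟩ := h
  obtain ⟨e', he', rfl⟩ := h'
  refine ⟨e.trans e', fun y i => ?_, rfl⟩
  have := add_mem (he' (e y) i) (he y i)
  simpa using this

omit [Fintype ι] [DecidableEq ι] in
theorem Rel.mono {𝔞 𝔟 : Ideal B} {x y : ι → B} (h : Rel 𝔞 x y) (hle : 𝔞 ≤ 𝔟) : Rel 𝔟 x y :=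
  let ⟨e, he, h1⟩ := h
  ⟨e, fun y i => hle (he y i), h1⟩

theorem lin_mem {𝔞 : Ideal B} (L : (ι → B) →ₗ[B] (ι → B)) {w : ι → B} (hw : ∀ i, w i ∈ 𝔞)
    (i : ι) : L w i ∈ 𝔞 := by
  rw [LinearMap.pi_apply_eq_sum_univ, Finset.sum_apply]
  exact sum_mem fun j _ => 𝔞.mul_mem_right _ (hw j)

theorem Rel.conj {𝔞 : Ideal B} {x y : ι → B} (E : (ι → B) ≃ₗ[B] (ι → B))
    (h : Rel 𝔞 (E x) (E y)) : Rel 𝔞 x y := by
  obtain ⟨e, he, h1⟩ := h
  refine ⟨(E.trans e).trans E.symm, fun w i => ?_, by simp [h1]⟩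
  have := lin_mem E.symm.toLinearMap (w := e (E w) - E w) (fun j => he _ j) i
  simpa using this

omit [Fintype ι] [DecidableEq ι] in
theorem Rel.tv {𝔞 : Ideal B} (φ : (ι → B) →ₗ[B] B) (w : ι → B) (h : φ w = 0)
    (hw : ∀ y i, φ y * w i ∈ 𝔞) (x : ι → B) {x' : ι → B} (hx : x' = x + φ x • w) :
    Rel 𝔞 x x' :=
  ⟨LinearEquiv.transvection h, fun y i => by
    rw [LinearEquiv.transvection.apply]; simpa using hw y i, hx.symm⟩

/-- the linear form with coefficients `c` -/
def lin (c : ι → B) : (ι → B) →ₗ[B] B where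
  toFun y := ∑ i, c i * y i
  map_add' y z := by simp [mul_add, Finset.sum_add_distrib]
  map_smul' r y := by simp [Finset.mul_sum, mul_left_comm]

omit [DecidableEq ι] in
theorem lin_apply (c y : ι → B) : lin c y = ∑ i, c i * y i := rfl

theorem lin_single (c : ι → B) (i : ι) : lin c (Pi.single i 1) = c i := by
  simp [lin_apply, Pi.single_apply]

/-- a two by two block -/
def blk (i0 i1 : ι) (p q p' q' : B) : (ι → B) →ₗ[B] (ι → B) where
  toFun y := fun i => if i = i0 then p * y i0 + q * y i1 else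
    if i = i1 then p' * y i0 + q' * y i1 else y i
  map_add' y z := by
    funext i
    simp only [Pi.add_apply]
    split_ifs <;> ring
  map_smul' r y := by
    funext i
    simp only [Pi.smul_apply, smul_eq_mul, RingHom.id_apply]
    split_ifs <;> ring

omit [Fintype ι] in
theorem blk_apply (i0 i1 : ι) (p q p' q' : B) (y : ι → B) (i : ι) :
    blk i0 i1 p q p' q' y i = if i = i0 then p * y i0 + q * y i1 else
      if i = i1 then p' * y i0 + q' * y i1 else y i := rfl

omit [Fintype ι] in
theorem blk_inv {i0 i1 : ι} (h : i0 ≠ i1) {p q p' q' : B} (hd : p * q' - q * p' = 1) :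
    blk i0 i1 q' (-q) (-p') p ∘ₗ blk i0 i1 p q p' q' = LinearMap.id := by
  refine LinearMap.ext fun y => funext fun i => ?_
  simp only [LinearMap.comp_apply, blk_apply, if_true, if_neg h.symm, LinearMap.id_apply]
  split_ifs with h0 h1
  · subst h0; linear_combination (y i) * hd
  · subst h1; linear_combination (y i) * hd
  · rfl

omit [Fintype ι] in
theorem Rel.blk {𝔞 : Ideal B} {i0 i1 : ι} (h : i0 ≠ i1) {p q p' q' : B}
    (hd : p * q' - q * p' = 1) (h1 : p - 1 ∈ 𝔞) (h2 : q ∈ 𝔞) (h3 : p' ∈ 𝔞) (h4 : q' - 1 ∈ 𝔞)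
    (x : ι → B) : Rel 𝔞 x (blk i0 i1 p q p' q' x) := by
  refine ⟨LinearEquiv.ofLinearMap (Ms.blk i0 i1 p q p' q') (Ms.blk i0 i1 q' (-q) (-p') p) ?_
    (blk_inv h hd), fun y i => ?_, rfl⟩
  · have := blk_inv h (p := q') (q := -q) (p' := -p') (q' := p) (by linear_combination hd)
    simpa using this
  · change Ms.blk i0 i1 p q p' q' y i - y i ∈ 𝔞
    rw [blk_apply]
    split_ifs with h0 h5
    · subst h0
      have := add_mem (𝔞.mul_mem_right (y i) h1) (𝔞.mul_mem_right (y i1) h2)
      convert this using 1; ring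
    · subst h5
      have := add_mem (𝔞.mul_mem_right (y i0) h3) (𝔞.mul_mem_right (y i) h4)
      convert this using 1; ring
    · simp

theorem suslin_move [IsDomain B] {i0 i1 : ι} (h01 : i0 ≠ i1) (V V' μ μ' : ι → B)
    (hμ0 : μ i0 = 0) (hμ1 : μ i1 = 0) (hμ0' : μ' i0 = 0) (hμ1' : μ' i1 = 0) (G H G' H' r z : B)
    (hr : r = V i0 * G + (V i1 + lin μ V) * H) (hr' : r = V' i0 * G' + (V' i1 + lin μ' V') * H')
    (hV : ∀ i, r * z ∣ V' i - V i) (hμ : ∀ i, r * z ∣ μ' i - μ i) (hG : r * z ∣ G' - G)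
    (hH : r * z ∣ H' - H) : Rel (Ideal.span {z}) V V' := by
  by_cases hr0 : r = 0
  · have : V' = V := funext fun i => by
      have := hV i
      rwa [hr0, zero_mul, zero_dvd_iff, sub_eq_zero] at this
    rw [this]; exact Rel.refl _ _
  have hz : ∀ a, z * a ∈ Ideal.span {z} := fun a =>
    Ideal.mul_mem_right _ _ (Ideal.subset_span rfl)
  have hW : r * z ∣ (V' i1 + lin μ' V') - (V i1 + lin μ V) := by
    have e : (V' i1 + lin μ' V') - (V i1 + lin μ V) =
        (V' i1 - V i1) + ∑ i, ((μ' i - μ i) * V' i + μ i * (V' i - V i)) := by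
      simp only [lin_apply, sub_mul, mul_sub, Finset.sum_add_distrib, Finset.sum_sub_distrib]
      ring
    rw [e]
    exact dvd_add (hV i1) (Finset.dvd_sum fun i _ =>
      dvd_add ((hμ i).mul_right _) ((hV i).mul_left _))
  choose κ hκ using hV
  choose ν hν using hμ
  obtain ⟨g, hg⟩ := hG
  obtain ⟨η, hη⟩ := hH
  obtain ⟨w, hw⟩ := hW
  set W := V i1 + lin μ V with hWd
  set W' := V' i1 + lin μ' V' with hWd'
  have hf := hκ i0
  let E := LinearEquiv.transvection (f := lin μ) (v := Pi.single i1 (1 : B))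
    (by rw [lin_single, hμ1])
  have hE : ∀ y i, E y i = if i = i1 then y i1 + lin μ y else y i := by
    intro y i
    simp only [E, LinearEquiv.transvection.apply, Pi.add_apply, Pi.smul_apply, Pi.single_apply]
    split_ifs with h <;> simp [h]
  refine Rel.conj E ?_
  have hd : (1 + z * (κ i0 * G + η * W)) * (1 + z * (w * H + g * V i0)) -
      z * (κ i0 * H - η * V i0) * (z * (w * G - g * W)) = 1 := by
    apply mul_left_cancel₀ hr0
    have e1 : V' i0 = V i0 + r * z * κ i0 := by linear_combination hf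
    have e2 : W' = W + r * z * w := by linear_combination hw
    have e3 : G' = G + r * z * g := by linear_combination hg
    have e4 : H' = H + r * z * η := by linear_combination hη
    rw [e1, e2, e3, e4] at hr'
    linear_combination hr - hr' - r * z ^ 2 * (κ i0 * g + η * w) * hr
  refine (Rel.blk h01 hd (by simpa using hz _) (hz _) (hz _) (by simpa using hz _) (E V)).trans ?_
  set x2 := Ms.blk i0 i1 (1 + z * (κ i0 * G + η * W)) (z * (κ i0 * H - η * V i0))
    (z * (w * G - g * W)) (1 + z * (w * H + g * V i0)) (E V) with hx2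
  have hx : ∀ i, x2 i = if i = i0 then V' i0 else if i = i1 then W' else V i := by
    intro i
    rw [hx2, blk_apply, hE, hE, hE, if_neg h01, if_pos rfl, ← hWd]
    split_ifs with h0 h1
    · linear_combination -hf - z * κ i0 * hr
    · linear_combination -hw - z * w * hr
    · rfl
  let x3 : ι → B := fun i => if i = i1 then W' else V' i
  refine Rel.trans (y := x3) (Rel.tv (G' • LinearMap.proj i0 + H' • LinearMap.proj i1)
    (fun i => if i = i0 then 0 else if i = i1 then 0 else z * κ i) (by simp) ?_ x2 ?_) ?_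
  · intro y i
    refine Ideal.mul_mem_left _ _ ?_
    split_ifs
    exacts [zero_mem _, zero_mem _, hz _]
  · funext i
    simp only [x3, Pi.add_apply, Pi.smul_apply, LinearMap.add_apply, LinearMap.smul_apply,
      LinearMap.proj_apply, smul_eq_mul, hx, if_true, if_neg h01.symm]
    by_cases h0 : i = i0
    · subst h0; simp [h01]
    · by_cases h1 : i = i1
      · subst h1; simp [h0]
      · simp only [if_neg h0, if_neg h1]
        linear_combination hκ i + z * κ i * hr'
  · refine Rel.tv (lin (μ - μ')) (Pi.single i1 1) (by rw [lin_single]; simp [hμ1, hμ1']) ?_ x3 ?_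
    · intro y i
      refine Ideal.mul_mem_right _ _ (sum_mem fun j _ => Ideal.mul_mem_right _ _ ?_)
      have : (μ - μ') j = z * (-(r * ν j)) := by
        rw [Pi.sub_apply]; linear_combination -hν j
      rw [this]; exact hz _
    · have e : lin (μ - μ') x3 = lin μ V' - lin μ' V' := by
        simp only [lin_apply, ← Finset.sum_sub_distrib]
        refine Finset.sum_congr rfl fun j _ => ?_
        by_cases h1 : j = i1
        · subst h1; simp [hμ1, hμ1']
        · simp only [x3, if_neg h1, Pi.sub_apply]; ring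
      funext i
      rw [hE, e]
      simp only [x3, Pi.add_apply, Pi.smul_apply, Pi.single_apply, smul_eq_mul]
      split_ifs with h
      · rw [hWd']; ring
      · ring

end Pool.Agent.P.MP_e35cb8_ag.Ms
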