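import Pool.Agent.P.MP_e35cb8_ag.Ms.Steps

/-!
The zero set of the conductor of a generic projection is small; the theorem over uncountable fields.
-/

set_option autoImplicit false

namespace Pool.Agent.P.MP_e35cb8_ag.Ms

open Polynomial

section

variable {A B : Type*} [CommRing A] [CommRing B] {α : A[X] →+* B}

theorem til_add (x y : A[X]) : til α (x + y) = til α x + til α y := by
  rw [til, map_add, divX_add]; rfl

theorem til_C (a : A) : til α (C a) = 0 := by rw [til, tau_C, divX_C]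

theorem til_X : til α X = 1 := by
  have := tau_til α X
  rw [tau_X, add_left_inj] at this
  exact (isRegular_X.left (by simpa using this)).symm

theorem til_mul (x y : A[X]) : til α (x * y) = C (α x) * til α y + til α x * tau α y := by
  have h := tau_til α (x * y)
  rw [map_mul, map_mul, map_mul] at h
  refine isRegular_X.left ?_
  change X * _ = X * _
  linear_combination -h + tau α y * tau_til α x + C (α x) * tau_til α y

variable {k : Type*} [Field k] {Ω : Type*} [Field Ω] [Algebra k Ω] [IsAlgClosed Ω]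
  [Algebra.IsAlgebraic k Ω] [Algebra k A] [Algebra k B]

theorem double_pt (hα : Function.Surjective α)
    (hαk : ∀ c : k, α (algebraMap k _ c) = algebraMap k _ c) {f0 : A[X]} (hf0 : f0.Monic)
    (hf0' : α f0 = 0) (y : B →+* Ω) (hy : Pt k y) (hc : ∀ a ∈ cond α, y a = 0) :
    ∃ z : Ω, ∀ x, α x = 0 → (til α x).eval₂ y z = 0 := by
  classical
  set I := RingHom.ker α with hI
  set x0 : A →+* Ω := y.comp (α.comp C) with hx0
  have hint : x0.IsIntegral := by
    refine RingHom.IsIntegral.tower_top (algebraMap k A) x0 ?_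
    have : x0.comp (algebraMap k A) = algebraMap k Ω := RingHom.ext fun c => by
      rw [← hy c, ← hαk c]; rfl
    rw [this]
    exact fun w => (Algebra.IsAlgebraic.isAlgebraic w).isIntegral
  set 𝔪 := RingHom.ker x0 with h𝔪
  haveI hmax : 𝔪.IsMaximal := Ideal.isMaximal_comap_of_isIntegral_of_isMaximal' x0 hint ⊥
  letI := Ideal.Quotient.field 𝔪
  let j : A ⧸ 𝔪 →+* Ω := RingHom.kerLift x0
  have hsurj : Function.Surjective (mapRingHom (Ideal.Quotient.mk 𝔪) : A[X] →+* (A ⧸ 𝔪)[X]) :=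
    map_surjective _ Ideal.Quotient.mk_surjective
  obtain ⟨p, hp⟩ : ∃ p : (A ⧸ 𝔪)[X], I.map (mapRingHom (Ideal.Quotient.mk 𝔪)) = Ideal.span {p} :=
    ⟨_, (Ideal.span_singleton_generator _).symm⟩
  have hdvd : ∀ f, α f = 0 → p ∣ f.map (Ideal.Quotient.mk 𝔪) := by
    intro f hf
    rw [← Ideal.mem_span_singleton, ← hp]
    exact Ideal.mem_map_of_mem _ hf
  have hp0 : p ≠ 0 := by
    rintro rfl
    exact (hf0.map _).ne_zero (zero_dvd_iff.1 (hdvd f0 hf0'))
  obtain ⟨f, hf, hf'⟩ := (Ideal.mem_map_iff_of_surjective _ hsurj).1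
    (hp ▸ Ideal.subset_span rfl : p ∈ I.map (mapRingHom (Ideal.Quotient.mk 𝔪)))
  rw [coe_mapRingHom] at hf'
  have key : ∀ x, α x = 0 → X * (til α x).map y =
      taylor (y (α X)) ((x.map (Ideal.Quotient.mk 𝔪)).map j) := by
    intro x hx
    have := congrArg (map y) (tau_til' hx)
    rw [tau_eq, map_taylor, Polynomial.map_mul, map_X, map_map] at this
    rw [← this, map_map]; rfl
  have hf1 := key f hf
  rw [hf'] at hf1
  by_cases hdeg : ((til α f).map y).degree = 0
  swap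
  · obtain ⟨z, hz⟩ := IsAlgClosed.exists_root _ hdeg
    refine ⟨z, fun x hx => ?_⟩
    obtain ⟨q, hq⟩ := hdvd x hx
    have h1 := key x hx
    rw [hq, Polynomial.map_mul, taylor_mul, ← hf1, mul_assoc] at h1
    rw [← eval_map, isRegular_X.left h1, eval_mul, hz.eq_zero, zero_mul]
  exfalso
  have hp1 : p.degree = 1 := by
    have := congrArg degree hf1
    rw [degree_mul, degree_X, hdeg, degree_taylor, degree_map] at this
    exact this.symm
  have : Module.Finite A (A[X] ⧸ I) := by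
    have := hf0.finite_quotient
    have hle : Ideal.span {f0} ≤ I := by
      rw [Ideal.span_le]; rintro _ rfl; exact hf0'
    exact Module.Finite.of_surjective (Ideal.Quotient.factorₐ A hle).toLinearMap
      (Ideal.Quotient.factor_surjective hle)
  let π := Ideal.Quotient.mkₐ A I
  let N : Submodule A (A[X] ⧸ I) := Submodule.span A {1}
  have hloc : (⊤ : Submodule A (A[X] ⧸ I)) ≤ N ⊔ 𝔪 • ⊤ := by
    intro m _
    obtain ⟨r, rfl⟩ := Ideal.Quotient.mk_surjective m
    have h1 := degree_mod_lt (r.map (Ideal.Quotient.mk 𝔪)) hp0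
    rw [hp1] at h1
    have h2 := eq_C_of_degree_le_zero (Nat.WithBot.lt_one_iff_le_zero.1 h1)
    obtain ⟨c, hc⟩ := Ideal.Quotient.mk_surjective ((r.map (Ideal.Quotient.mk 𝔪) % p).coeff 0)
    obtain ⟨q, hq⟩ := hsurj (r.map (Ideal.Quotient.mk 𝔪) / p)
    rw [coe_mapRingHom] at hq
    set s := r - f * q - C c with hs
    have hs0 : s.map (Ideal.Quotient.mk 𝔪) = 0 := by
      have := EuclideanDomain.div_add_mod (r.map (Ideal.Quotient.mk 𝔪)) p
      rw [hs, Polynomial.map_sub, Polynomial.map_sub, Polynomial.map_mul, hf', hq, map_C, hc, ← h2]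
      linear_combination -this
    have hs1 : π s ∈ 𝔪 • (⊤ : Submodule A (A[X] ⧸ I)) := by
      rw [s.as_sum_support_C_mul_X_pow, map_sum]
      refine Submodule.sum_mem _ fun i _ => ?_
      rw [← smul_eq_C_mul, map_smul]
      refine Submodule.smul_mem_smul ?_ Submodule.mem_top
      rw [← Ideal.Quotient.eq_zero_iff_mem, ← coeff_map, hs0, coeff_zero]
    have hr : r = c • 1 + s + f * q := by rw [hs, smul_eq_C_mul]; ring
    change π r ∈ _
    have hπf : π (f * q) = 0 := Ideal.Quotient.eq_zero_iff_mem.2 (I.mul_mem_right _ hf)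
    rw [hr, map_add, hπf, add_zero, map_add, map_smul, map_one]
    exact add_mem (Submodule.mem_sup_left (N.smul_mem _ (Submodule.subset_span rfl)))
      (Submodule.mem_sup_right hs1)
  obtain ⟨r, hr, hr'⟩ := Submodule.exists_sub_one_mem_and_smul_le_of_fg_of_le_sup (I := 𝔪)
    (N := N) (N' := ⊤) (P := ⊤) Module.Finite.fg_top le_rfl hloc
  have h3 : α (C r) ∈ cond α := by
    intro γ
    obtain ⟨x, rfl⟩ := hα γ
    obtain ⟨c, hc⟩ := Submodule.mem_span_singleton.1
      (hr' (Submodule.smul_mem_pointwise_smul (π x) r ⊤ Submodule.mem_top))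
    refine ⟨c, ?_⟩
    have h4 : π (C c - C r * x) = 0 := by
      rw [map_sub, ← smul_eq_C_mul, map_smul, ← hc, ← mul_one (C c), ← smul_eq_C_mul, map_smul,
        map_one, sub_self]
    have h5 : α _ = 0 := Ideal.Quotient.eq_zero_iff_mem.1 h4
    rwa [map_sub, map_mul, sub_eq_zero] at h5
  have h4 : x0 (r - 1) = 0 := hr
  have h5 : x0 r = 0 := hc _ h3
  rw [map_sub, h5] at h4
  simp at h4

end

variable {k : Type*} [Field k] [Uncountable k] (Ω : Type*) [Field Ω] [Algebra k Ω] [IsAlgClosed Ω]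
  [Algebra.IsAlgebraic k Ω]

theorem small_cond {N d : ℕ} (φ : Fin (N + 1) → MvPolynomial (Fin d) k) :
    ∃ v : Fin N → k, ∀ (α : (MvPolynomial (Fin N) k)[X] →+* MvPolynomial (Fin d) k)
      (ρ : MvPolynomial (Fin d) k →+* (MvPolynomial (Fin N) k)[X]) (e : Fin N → ℕ),
      (∀ β, α (ρ β) = β) → (∀ c : k, α (algebraMap k _ c) = algebraMap k _ c) →
      (∀ c : k, ρ (algebraMap k _ c) = algebraMap k _ c) → (∃ f0, f0.Monic ∧ α f0 = 0) →
      α X = φ 0 → (∀ i, α (X ^ e i + (C (MvPolynomial.C (v i)) * X + C (MvPolynomial.X i))) =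
        φ i.succ) →
      Small (2 * d - N) {y : MvPolynomial (Fin d) k →+* Ω | Pt k y ∧ ∀ a ∈ cond α, y a = 0} := by
  classical
  let W1 : Set (MvPolynomial (Fin d) k) := Set.range fun p : Fin (N + 1) × ℕ => φ p.1 ^ p.2
  obtain ⟨T0, hT0, h0⟩ := coef_set (Ω := Ω) (W1 ∪ ⋃ j, MvPolynomial.pderiv j '' W1)
    ((Set.countable_range _).union (Set.countable_iUnion fun j => (Set.countable_range _).image _))
  obtain ⟨v, hv⟩ := gen_exists (k := k) (Fin N) T0 hT0
  refine ⟨v, fun α ρ e hρ hαk hρk ⟨f0, hf0, hf0'⟩ hX hφ W hW => ?_⟩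
  obtain ⟨T1, hT1, h1⟩ := coef_set (Ω := Ω) W hW
  refine ⟨T1 ∪ (T0 ∪ Set.range fun i => algebraMap k Ω (v i)),
    hT1.union (hT0.union (Set.countable_range _)), fun y ⟨hy, hc⟩ => ?_⟩
  obtain ⟨z, hz⟩ := double_pt (fun β => ⟨ρ β, hρ β⟩) hαk hf0 hf0' y hy hc
  let χ : (MvPolynomial (Fin d) k)[X] →+* Ω := eval₂RingHom y z
  have hχC : ∀ b, χ (C b) = y b := fun b => by simp [χ]
  let Δ : MvPolynomial (Fin d) k → Ω := fun β => χ (til α (ρ β))
  have hΔ : ∀ x, χ (til α x) = Δ (α x) := by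
    intro x
    have := hz (x - ρ (α x)) (by rw [map_sub, hρ, sub_self])
    have e1 : x = (x - ρ (α x)) + ρ (α x) := by ring
    conv_lhs => rw [e1, til_add, map_add]
    rw [show χ (til α (x - ρ (α x))) = 0 from this, zero_add]
  let y' := (χ.comp (tau α)).comp ρ
  have hy' : ∀ β, y' β = z * Δ β + y β := by
    intro β
    simp only [y', RingHom.comp_apply]
    rw [tau_til, map_add, map_mul, hρ, hχC]
    simp [χ, Δ]
  have hΔC : ∀ c : k, Δ (algebraMap k _ c) = 0 := fun c => by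
    simp only [Δ]
    rw [hρk, Polynomial.algebraMap_apply, til_C, map_zero]
  have hpt' : Pt k y' := fun c => by rw [hy', hΔC, hy c]; simp
  have hΔX : Δ (φ 0) = 1 := by rw [← hX, ← hΔ, til_X, map_one]
  have hvi : ∀ i, algebraMap k Ω (v i) = Δ (φ i.succ ^ 1) - Δ (φ 0 ^ e i) := by
    intro i
    have := hαk (v i)
    rw [Polynomial.algebraMap_apply, MvPolynomial.algebraMap_eq] at this
    rw [pow_one, ← hφ, ← hX, ← map_pow, ← hΔ, ← hΔ, til_add, til_add, til_mul, til_C, til_C, til_X,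
      this, ← hy]
    simp [hχC]
  obtain ⟨F0, hF0, hF1, hF2⟩ : ∃ F0 : Finset Ω, F0.card ≤ 2 * d ∧
      (∀ j, y (MvPolynomial.X j) ∈ F0) ∧ ∀ w ∈ W1, Δ w ∈ acl (T0 ∪ F0) := by
    have hcard : ∀ a b : Fin d → Ω, (Finset.univ.image a ∪ Finset.univ.image b).card ≤ 2 * d := by
      intro a b
      have h2 := Finset.card_union_le (Finset.univ.image a) (Finset.univ.image b)
      have h3 := Finset.card_image_le (s := Finset.univ) (f := a)
      have h4 := Finset.card_image_le (s := Finset.univ) (f := b)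
      simp only [Finset.card_univ, Fintype.card_fin] at h3 h4
      omega
    have hT : ∀ F : Finset Ω, T0 ⊆ acl (T0 ∪ F) := fun F x hx => subset_acl _ (Or.inl hx)
    by_cases hz0 : z = 0
    · refine ⟨_, hcard (fun j => y (MvPolynomial.X j)) fun j => Δ (MvPolynomial.X j),
        fun j => by simp, fun w hw => ?_⟩
      rw [chain y Δ (fun r s => by simp only [Δ, map_add, til_add]) hΔC (fun r s => by
        have := hy' s
        simp only [y', RingHom.comp_apply, hz0] at this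
        simp only [Δ, map_mul, til_mul, map_add, hχC, hρ, this]
        ring) w]
      refine sum_mem fun j _ => mul_mem (h0 y hy _ (hT _) (fun j => subset_acl _ (Or.inr (by simp)))
        _ (Or.inr (Set.mem_iUnion.2 ⟨j, w, hw, rfl⟩))) (subset_acl _ (Or.inr (by simp)))
    · refine ⟨_, hcard (fun j => y (MvPolynomial.X j)) fun j => y' (MvPolynomial.X j),
        fun j => by simp, fun w hw => ?_⟩
      have k1 := h0 y hy _ (hT (Finset.univ.image (fun j => y (MvPolynomial.X j)) ∪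
        Finset.univ.image fun j => y' (MvPolynomial.X j))) fun j => subset_acl _ (Or.inr (by simp))
      have k2 := h0 y' hpt' _ (hT (Finset.univ.image (fun j => y (MvPolynomial.X j)) ∪
        Finset.univ.image fun j => y' (MvPolynomial.X j))) fun j => subset_acl _ (Or.inr (by simp))
      have hm : φ 0 ∈ W1 := ⟨(0, 1), pow_one _⟩
      have e1 : Δ w = (y' w - y w) / (y' (φ 0) - y (φ 0)) := by
        rw [hy', hy', hΔX, add_sub_cancel_right, add_sub_cancel_right, mul_one,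
          mul_div_cancel_left₀ _ hz0]
      rw [e1]
      exact div_mem (sub_mem (k2 _ (Or.inl hw)) (k1 _ (Or.inl hw)))
        (sub_mem (k2 _ (Or.inl hm)) (k1 _ (Or.inl hm)))
  obtain ⟨Z', hc', hZ'⟩ := hv F0 fun i => by
    rw [hvi]
    exact sub_mem (hF2 _ ⟨(i.succ, 1), rfl⟩) (hF2 _ ⟨(0, e i), rfl⟩)
  rw [Fintype.card_fin] at hc'
  refine ⟨Z', by omega, h1 y hy _ (fun x hx => subset_acl _ (Or.inl (Or.inl hx))) fun j => ?_⟩
  exact acl_mono (Set.union_subset_union_left _ Set.subset_union_right) (hZ' (hF1 j))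

omit [IsAlgClosed Ω] [Algebra.IsAlgebraic k Ω] in
theorem ne_bot_of_small {d δ : ℕ} (h : δ < d) (𝔠 : Ideal (MvPolynomial (Fin d) k))
    (hD : Small δ {y : MvPolynomial (Fin d) k →+* Ω | Pt k y ∧ ∀ a ∈ 𝔠, y a = 0}) :
    ∃ γ ∈ 𝔠, γ ≠ 0 := by
  by_contra hcon
  push Not at hcon
  obtain ⟨T, hT, h1⟩ := hD (Set.range MvPolynomial.X) (Set.countable_range _)
  obtain ⟨θ, hθ⟩ := gen_exists (k := k) (Fin d) T hT
  obtain ⟨F, hF, h2⟩ := h1 (MvPolynomial.eval₂Hom (algebraMap k Ω) fun j => algebraMap k Ω (θ j))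
    ⟨fun c => by simp, fun a ha => by rw [hcon a ha, map_zero]⟩
  obtain ⟨Z', hc, -⟩ := hθ F fun j => by simpa using h2 _ ⟨j, rfl⟩
  rw [Fintype.card_fin] at hc
  omega

theorem main_unc {n d : ℕ} (h : d + 1 + 4 ≤ 2 * n)
    (α0 : MvPolynomial (Fin (n + (d + 1))) k →ₐ[k] MvPolynomial (Fin (d + 1)) k)
    (ρ0 : MvPolynomial (Fin (d + 1)) k →ₐ[k] MvPolynomial (Fin (n + (d + 1))) k)
    (hρ0 : ∀ β, α0 (ρ0 β) = β) :
    ∃ f : Fin n → MvPolynomial (Fin (n + (d + 1))) k,
      Ideal.span (Set.range f) = RingHom.ker α0 := by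
  classical
  by_cases hker : ∀ f, α0 f = 0 → f = 0
  · refine ⟨0, le_antisymm (Ideal.span_le.2 ?_) fun f hf => ?_⟩
    · rintro _ ⟨i, rfl⟩; exact zero_mem _
    · rw [hker f hf]; exact zero_mem _
  push Not at hker
  obtain ⟨f0, hf0', hf0⟩ := hker
  obtain ⟨ε, hε, hε'⟩ := exists_gen (by omega) α0 ρ0 hρ0
  obtain ⟨v, hv⟩ := small_cond (AlgebraicClosure k) (N := n + d) fun i => α0 (MvPolynomial.X i)
  obtain ⟨e, Θ, c, hΘ0, hΘ, hc⟩ := tri (N := n + d) v f0 hf0
  let α1 := α0.comp Θ.symm.toAlgHom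
  let ρ1 := Θ.toAlgHom.comp ρ0
  have hαΘ : ∀ f, α1 (Θ f) = α0 f := fun f => congrArg α0 (Θ.symm_apply_apply f)
  have hρ1 : ∀ β, α1 (ρ1 β) = β := fun β => (hαΘ _).trans (hρ0 β)
  have hc' : α1 (c • Θ f0) = 0 := by rw [map_smul, hαΘ, hf0', smul_zero]
  have hD := hv α1.toRingHom ρ1.toRingHom e hρ1 α1.commutes ρ1.commutes ⟨_, hc, hc'⟩
    (by rw [← hΘ0]; exact hαΘ _) fun i => by rw [← hΘ]; exact hαΘ _
  have g1 : Gen α1.toRingHom fun i => Θ (ε i) := by
    refine ⟨fun i => (hαΘ _).trans (hε i), fun x hx => ?_⟩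
    have h1 := Ideal.mem_map_of_mem Θ (hε' (show Θ.symm x ∈ RingHom.ker α0 from hx))
    rw [Θ.apply_symm_apply, Ideal.map_sup, Ideal.map_span, ← Set.range_comp, Ideal.map_pow] at h1
    have h2 : (RingHom.ker α0).map Θ ≤ RingHom.ker α1.toRingHom :=
      Ideal.map_le_iff_le_comap.2 fun a ha => (hαΘ a).trans ha
    exact (sup_le_sup_left (Ideal.pow_right_mono h2 2) _ :) h1
  obtain ⟨γ0, hγ0, hγ0'⟩ := ne_bot_of_small _ (by omega) _ hD
  obtain ⟨i1, hi1⟩ : ∃ i, α1 (derivative (Θ (ε i))) ≠ 0 := by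
    by_contra hcon
    push Not at hcon
    have : Ideal.span (Set.range fun i => (til α1.toRingHom (Θ (ε i))).coeff 0) ≤ ⊥ := by
      rw [Ideal.span_le]
      rintro _ ⟨i, rfl⟩
      exact (til_coeff_zero _ _).trans (hcon i)
    exact hγ0' (this (g1.cond_le hγ0))
  obtain ⟨-, ψ, c', -, -, hψ⟩ := tri 0 (γ0 * γ0 * α1 (derivative (Θ (ε i1))))
    (mul_ne_zero (mul_ne_zero hγ0' hγ0') hi1)
  let α2 := ψ.toAlgHom.comp α1
  let ρ2 := ρ1.comp ψ.symm.toAlgHom
  have hk : RingHom.ker α2.toRingHom = RingHom.ker α1.toRingHom := by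
    ext x
    exact map_eq_zero_iff ψ ψ.injective
  have hcond : ∀ β ∈ cond α1.toRingHom, ψ β ∈ cond α2.toRingHom := by
    intro β hβ γ
    obtain ⟨a, ha⟩ := hβ (ψ.symm γ)
    refine ⟨a, (congrArg ψ ha).trans ?_⟩
    rw [map_mul, ψ.apply_symm_apply]
  obtain ⟨g, hg⟩ := core_ms k (AlgebraicClosure k) (α := α2.toRingHom) α2.commutes ρ2.toRingHom
    (fun β => (congrArg ψ (hρ1 _)).trans (ψ.apply_symm_apply β)) ρ2.commutes
    (δ := 2 * (d + 1) - (n + d)) (ι := Fin n) (by rw [Fintype.card_fin]; omega)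
    (ε := fun i => Θ (ε i))
    ⟨fun i => (congrArg ψ (g1.1 i)).trans (map_zero ψ), by rw [hk]; exact g1.2⟩ hc
    ((congrArg ψ hc').trans (map_zero ψ)) (i1 := i1) (γ := ψ (c' • γ0) * ψ γ0)
    (mul_mem_sq (hcond _ (by
      rw [MvPolynomial.smul_eq_C_mul]; exact Ideal.mul_mem_left _ _ hγ0)) (hcond _ hγ0))
    (by
      have : ψ (c' • γ0) * ψ γ0 * α2.toRingHom (derivative (Θ (ε i1))) =
          c' • ψ (γ0 * γ0 * α1 (derivative (Θ (ε i1)))) := by
        rw [map_smul, map_mul, map_mul, smul_mul_assoc, smul_mul_assoc]; rfl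
      rw [this]; exact hψ)
    ((hD.image ψ.symm.toRingEquiv.toRingHom).mono fun χ hχ =>
      ⟨χ.comp ψ.toRingEquiv.toRingHom,
        ⟨fun c => (congrArg χ (ψ.commutes c)).trans (hχ.1 c), fun a ha => hχ.2 _ (hcond a ha)⟩,
        RingHom.ext fun x => congrArg χ (ψ.apply_symm_apply x)⟩)
  rw [hk] at hg
  refine ⟨fun i => Θ.symm (g i), le_antisymm ?_ ?_⟩
  · rw [Ideal.span_le]
    rintro _ ⟨i, rfl⟩
    have : g i ∈ RingHom.ker α1.toRingHom := hg ▸ Ideal.subset_span ⟨i, rfl⟩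
    exact this
  · intro f hf
    have h1 : Θ f ∈ Ideal.span (Set.range g) := by
      rw [hg]; exact (hαΘ f).trans hf
    have h2 := Ideal.mem_map_of_mem Θ.symm h1
    rw [Θ.symm_apply_apply, Ideal.map_span, ← Set.range_comp] at h2
    exact h2

end Pool.Agent.P.MP_e35cb8_ag.Ms
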