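import Pool.Agent.P.MP_e35cb8_ag.Ms.Til

/-!
The algebraic core: a kernel whose conductor has a small zero set.
-/

set_option autoImplicit false

namespace Pool.Agent.P.MP_e35cb8_ag.Ms

open Polynomial

variable {A B0 : Type*} [CommRing A] [CommRing B0] [IsDomain B0] {α : A[X] →+* B0[X]}
  {ι : Type*} [Fintype ι] [DecidableEq ι]

theorem step_two (hα : Function.Surjective α) {f : ι → A[X]} (hf : Gen α f) {i1 i2 : ι}
    (h12 : i1 ≠ i2) (hmon : (til α (f i1)).Monic) {γ : B0[X]} (hγ : γ ∈ cond α ^ 2)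
    (hγ' : (γ * (til α (f i1)).coeff 0).Monic) (e : ℕ) :
    ∃ (f' : ι → A[X]) (P : B0[X]), Gen α f' ∧ til α (f' i1) = til α (f i1) ∧
      ((til α (f' i2)).coeff 0).Monic ∧
      Ok e ((til α (f' i2)).coeff 0).natDegree (til α (f' i2)) ∧ P.Monic ∧
      C P ∈ Ideal.span {til α (f' i1), til α (f' i2)} := by
  set b := til α (f i2) with hb
  set w1 := til α (f i1) with hw1
  obtain ⟨p, hp, hp'⟩ := int_one (𝔞 := Ideal.span {w1}) hmon (Ideal.subset_span rfl)
    (Ideal.Quotient.mk _ (-b))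
  have hp2 : p.eval₂ C (-b) ∈ Ideal.span {w1} := by
    rw [← Ideal.Quotient.eq_zero_iff_mem, hom_eval₂]; exact hp'
  obtain ⟨D, hD⟩ := exists_ok e b
  set M := D + 1 + ∑ j ∈ p.support, (p.coeff j).natDegree with hM
  set G := γ * w1.coeff 0 * X ^ M with hG
  have hGm : G.Monic := hγ'.mul (monic_X_pow M)
  have hGd : M ≤ G.natDegree := by
    rw [hG, hγ'.natDegree_mul (monic_X_pow M), natDegree_X_pow]; omega
  have hb0 : (b.coeff 0).natDegree < G.natDegree := by
    have := hD.le 0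
    omega
  obtain ⟨f', hf', ht⟩ := hf.change hα (Function.update (fun i => til α (f i)) i2 (b + C G))
    (Rel.tv (LinearMap.proj i1) (Pi.single i2 (γ * X ^ M)) (by simp [h12]) (by
      intro y i
      refine Ideal.mul_mem_left _ _ ?_
      rw [Pi.single_apply]
      split_ifs
      exacts [Ideal.mul_mem_right _ _ hγ, zero_mem _]) _ (by
      funext i
      by_cases h : i = i2
      · subst h
        simp only [Function.update_self, coeff_add, coeff_C_zero, Pi.add_apply, Pi.smul_apply,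
          LinearMap.proj_apply, Pi.single_eq_same, smul_eq_mul, hG]
        ring
      · simp [h])) (by
      intro i
      by_cases h : i = i2
      · subst h
        rw [Function.update_self, add_sub_cancel_left]
        exact Ideal.mem_map_of_mem _ (Ideal.mul_mem_right _ _ (Ideal.mul_mem_right _ _ hγ))
      · simp [h])
  have t1 : til α (f' i1) = w1 := by rw [ht, Function.update_of_ne h12]
  have t2 : til α (f' i2) = b + C G := by rw [ht, Function.update_self]
  have t3 : (b + C G).coeff 0 = b.coeff 0 + G := by simp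
  have t4 : (b.coeff 0 + G).natDegree = G.natDegree := natDegree_add_eq_right_of_natDegree_lt hb0
  refine ⟨f', p.eval G, hf', t1, ?_, ?_, monic_eval hp hGm fun j => ?_, ?_⟩
  · rw [t2, t3]; exact hGm.add_of_right (degree_lt_degree hb0)
  · rw [t2, t3, t4]
    intro j hj
    rcases j with _ | j
    · rw [t3, t4]; simp
    · rw [coeff_add, coeff_C_succ, add_zero] at hj ⊢
      have := hD _ hj
      omega
  · by_cases h : p.coeff j = 0
    · rw [h, natDegree_zero]; omega
    · have := Finset.single_le_sum (f := fun j => (p.coeff j).natDegree) (fun _ _ => Nat.zero_le _)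
        (mem_support_iff.2 h)
      omega
  · rw [t1, t2]
    obtain ⟨a, ha⟩ := Ideal.mem_span_singleton'.1 hp2
    obtain ⟨c, hc⟩ := sub_dvd_eval_sub (C G) (-b) (p.map C)
    rw [eval_map, eval_map, eval₂_at_apply] at hc
    exact Ideal.mem_span_pair.2 ⟨a, c, by linear_combination ha - hc⟩

variable (k : Type*) [Field k] (Ω : Type*) [Field Ω] [Algebra k Ω] [IsAlgClosed Ω]
  [Algebra k A] [Algebra k B0]

omit [IsDomain B0] [IsAlgClosed Ω] in
variable {k Ω} in
theorem pt_tau (hαk : ∀ c : k, α (algebraMap k _ c) = algebraMap k _ c) {χ : B0[X][X] →+* Ω}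
    (h : Pt k χ) : Pt k (χ.comp (tau α)) := fun c => by
  rw [RingHom.comp_apply, Polynomial.algebraMap_apply, tau_C, ← Polynomial.algebraMap_apply, hαk,
    ← Polynomial.algebraMap_apply, h]

theorem step_three [Uncountable k] [IsNoetherianRing A]
    (hαk : ∀ c : k, α (algebraMap k _ c) = algebraMap k _ c) {δ : ℕ}
    (hι : δ + 3 ≤ Fintype.card ι) {f : ι → A[X]} (hf : Gen α f) {i1 i2 : ι} (h12 : i1 ≠ i2)
    (hmon : (til α (f i1)).Monic) {P : B0[X]} (hP : P.Monic)
    (hP' : C P ∈ Ideal.span {til α (f i1), til α (f i2)}) {G : B0[X]} (hG : G.Monic)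
    (hG' : G ∈ cond α) (hD : Small δ {χ : B0[X] →+* Ω | Pt k χ ∧ ∀ a ∈ cond α, χ a = 0}) :
    ∃ f' : ι → A[X], Gen α f' ∧ f' i1 = f i1 ∧ f' i2 = f i2 ∧ ∀ χ : B0[X][X] →+* Ω, Pt k χ →
      (∀ s : B0, C s ∈ cond α → χ (C (C s)) = 0) → (∀ i, χ (til α (f' i)) = 0) →
      ∀ x, α x = 0 → χ (tau α x) = 0 := by
  obtain ⟨s, hs, hs'⟩ := hf.exists_s
  have hZ := (hD.image C).integral (C.comp C) (Ideal.span {til α (f i1), til α (f i2)})
    (int_two hmon (Ideal.subset_span (by simp)) hP hP')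
  have hcard : δ < Fintype.card {i // i ≠ i1 ∧ i ≠ i2} := by
    have e : (Finset.univ.filter fun i => i ≠ i1 ∧ i ≠ i2) = (Finset.univ.erase i1).erase i2 := by
      ext i; simp [and_comm]
    rw [Fintype.card_subtype, e, Finset.card_erase_of_mem (by simp [h12.symm]),
      Finset.card_erase_of_mem (by simp), Finset.card_univ]
    omega
  obtain ⟨l, hl⟩ := gen_pos (k := k) hZ hcard (tau α s ^ 2) fun i => tau α (f i.1)
  let l' : ι → k := fun i => if h : i ≠ i1 ∧ i ≠ i2 then l ⟨i, h⟩ else 0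
  let f' : ι → A[X] := fun i => f i + algebraMap k _ (l' i) * s ^ 2
  have e1 : f' i1 = f i1 := by simp [f', l']
  have e2 : f' i2 = f i2 := by simp [f', l']
  have hf' : Gen α f' := hf.congr fun i => by
    rw [add_sub_cancel_left]
    exact Ideal.mul_mem_left _ _ (Ideal.pow_mem_pow hs 2)
  refine ⟨f', hf', e1, e2, fun χ hχ h1 h2 x hx => ?_⟩
  have h3 : ∀ i, χ (tau α (f' i)) = 0 := fun i => by rw [tau_til' (hf'.1 i), map_mul, h2, mul_zero]
  have h4 : χ (tau α s ^ 2) = 0 := by
    refine hl χ ⟨fun a ha => ?_, ?_⟩ hχ fun i => ?_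
    · obtain ⟨u, v, rfl⟩ := Ideal.mem_span_pair.1 ha
      rw [map_add, map_mul, map_mul, ← e1, ← e2, h2, h2]; simp
    · obtain ⟨y, hy, hy'⟩ := lying_over C (cond α) (int_one hG hG') (χ.comp (C.comp C)) h1
      refine ⟨y, ⟨fun c => ?_, hy⟩, hy'⟩
      rw [← hχ c]
      exact RingHom.congr_fun hy' (algebraMap k B0 c)
    · have := h3 i.1
      simp only [f', l', dif_pos i.2, map_add, map_mul, map_pow] at this ⊢
      rw [← RingHom.comp_apply χ (tau α) (algebraMap k _ _), pt_tau hαk hχ] at this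
      rw [hχ]; exact this
  rw [map_pow, pow_eq_zero_iff two_ne_zero] at h4
  have h5 : Ideal.span (Set.range f) ≤ RingHom.ker (χ.comp (tau α)) := by
    rw [Ideal.span_le]
    rintro _ ⟨i, rfl⟩
    have := h3 i
    simp only [f', map_add, map_mul, map_pow, h4] at this
    simpa using this
  have h6 : χ (tau α _) = 0 := h5 (hs' x hx)
  simpa [h4] using h6

theorem step_four [IsNoetherianRing A] [Algebra.FiniteType k B0] {f : ι → A[X]} (hf : Gen α f)
    {i1 i2 : ι} (hmon : (til α (f i1)).Monic) {P : B0[X]} (hP : P.Monic)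
    (hP' : C P ∈ Ideal.span {til α (f i1), til α (f i2)})
    (hres : ∀ χ : B0[X][X] →+* Ω, Pt k χ → (∀ s : B0, C s ∈ cond α → χ (C (C s)) = 0) →
      (∀ i, χ (til α (f i)) = 0) → ∀ x, α x = 0 → χ (tau α x) = 0) :
    ∃ s0 : B0, C s0 ∈ cond α ∧ ∀ χ : B0[X][X] →+* Ω, (∀ i, χ (til α (f i)) = 0) →
      (∀ a ∈ cond α, χ (C a) = 0) ∨ χ (C (C s0)) = 1 := by
  obtain ⟨s, hs, hs'⟩ := hf.exists_s
  set 𝔴 := Ideal.span (Set.range fun i => til α (f i)) ⊔ Ideal.span {1 - tau α s} with h𝔴
  have hw : ∀ i, til α (f i) ∈ 𝔴 := fun i => Ideal.mem_sup_left (Ideal.subset_span ⟨i, rfl⟩)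
  have hint := int_two (𝔞 := 𝔴) hmon (hw i1) hP (by
    obtain ⟨u, v, h⟩ := Ideal.mem_span_pair.1 hP'
    exact mem2 (hw i1) (hw i2) u v h.symm)
  have h1 : (1 : B0) ∈ (𝔴.comap (C.comp C) ⊔ (cond α).comap C).radical := by
    refine nss Ω k _ 1 fun x hx h0 => ?_
    obtain ⟨χ, h2, h3⟩ := lying_over _ 𝔴 hint x fun a ha => h0 a (Ideal.mem_sup_left ha)
    have h4 := hres χ (fun c => (RingHom.congr_fun h3 (algebraMap k B0 c)).trans (hx c))
      (fun a ha => (RingHom.congr_fun h3 a).trans (h0 a (Ideal.mem_sup_right ha)))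
      (fun i => h2 _ (hw i)) s hs
    have h5 := h2 _ (Ideal.mem_sup_right (Ideal.subset_span rfl))
    rw [map_sub, h4] at h5
    simp at h5
  obtain ⟨j, hj⟩ := h1
  rw [one_pow] at hj
  obtain ⟨a, ha, s0, hs0, e⟩ := Submodule.mem_sup.1 hj
  refine ⟨s0, hs0, fun χ h2 => ?_⟩
  by_cases h3 : χ (1 - tau α s) = 0
  · right
    have h4 : 𝔴 ≤ RingHom.ker χ := sup_le (Ideal.span_le.2 (by rintro _ ⟨i, rfl⟩; exact h2 i))
      (Ideal.span_le.2 (by rintro _ rfl; exact h3))
    have h5 : χ (C (C a)) = 0 := h4 ha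
    have h6 := congrArg (fun t => χ (C (C t))) e
    simpa [h5] using h6
  · left
    intro γ hγ
    have h4 : Ideal.span (Set.range f) ≤ RingHom.ker (χ.comp (tau α)) := by
      rw [Ideal.span_le]
      rintro _ ⟨i, rfl⟩
      change χ (tau α (f i)) = 0
      rw [tau_til' (hf.1 i), map_mul, h2, mul_zero]
    by_cases hz : χ X = 0
    · have h5 : Ideal.span (Set.range fun i => (til α (f i)).coeff 0) ≤
          RingHom.ker (χ.comp C) := by
        rw [Ideal.span_le]
        rintro _ ⟨i, rfl⟩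
        have := congrArg χ (X_mul_divX_add (til α (f i)))
        rw [map_add, map_mul, hz, h2, zero_mul, zero_add] at this
        exact this
      exact h5 (hf.cond_le hγ)
    · obtain ⟨x, hx⟩ := cond_lift hγ X
      have h5 : χ (tau α _) = 0 := h4 (hs' x (til_of (hx.trans (mul_comm _ _))).1)
      rw [map_mul, map_sub, map_one, hx, map_mul, map_mul] at h5
      exact (mul_eq_zero.1 ((mul_eq_zero.1 h5).resolve_left h3)).resolve_right hz

omit [IsAlgClosed Ω] [Algebra k A] in
theorem step_five [Infinite k] [Algebra.FiniteType k B0] (hα : Function.Surjective α)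
    {f : ι → A[X]} (hf : Gen α f) {i1 i2 i3 : ι} (h12 : i1 ≠ i2) (h13 : i1 ≠ i3) (h23 : i2 ≠ i3)
    (hmon : (til α (f i1)).Monic) {e : ℕ}
    (he : ∀ j, ((til α (f i1)).coeff j).natDegree < e)
    (hm2 : ((til α (f i2)).coeff 0).Monic)
    (hok : Ok e ((til α (f i2)).coeff 0).natDegree (til α (f i2)))
    (hres : ∀ χ : B0[X][X] →+* Ω, Pt k χ → (∀ s : B0, C s ∈ cond α → χ (C (C s)) = 0) →
      (∀ i, χ (til α (f i)) = 0) → ∀ x, α x = 0 → χ (tau α x) = 0)
    {s0 : B0} (hs0 : C s0 ∈ cond α) (hs0' : ∀ χ : B0[X][X] →+* Ω, (∀ i, χ (til α (f i)) = 0) →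
      (∀ a ∈ cond α, χ (C a) = 0) ∨ χ (C (C s0)) = 1) :
    ∃ f' : ι → A[X], Gen α f' ∧ (til α (f' i1)).Monic ∧
      (til α (f' i1)).natDegree = (til α (f i1)).natDegree ∧ ∀ χ : B0[X][X] →+* Ω, Pt k χ →
        (∀ i, χ (til α (f' i)) = 0) → ∀ x, α x = 0 → χ (tau α x) = 0 := by
  set m := (til α (f i1)).natDegree with hm
  choose E hE using fun i => exists_ok e (til α (f i))
  let D : ι → ℕ := fun i => if i = i2 then ((til α (f i2)).coeff 0).natDegree else
    if i = i1 then e * m else e * m + ∑ i, E i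
  have D1 : D i1 = e * m := by simp [D, h12]
  have D2 : D i2 = ((til α (f i2)).coeff 0).natDegree := by simp [D]
  have hlt : ∀ j, j < m → ((til α (f i1)).coeff j).natDegree < e * m - e * j := by
    intro j hj
    have h1 := he j
    have h2 := Nat.mul_le_mul_left e (Nat.succ_le_of_lt hj)
    rw [Nat.mul_succ] at h2
    omega
  have hOk : ∀ i, Ok e (D i) (til α (f i)) := by
    intro i
    by_cases h2 : i = i2
    · rw [h2, D2]; exact hok
    by_cases h1 : i = i1
    · rw [h1, D1]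
      intro j hj
      rcases (le_natDegree_of_ne_zero hj).lt_or_eq with h | h
      · have := hlt j h; omega
      · rw [h, hmon.coeff_natDegree]; simp [hm]
    · refine (hE i).mono ?_
      have := Finset.single_le_sum (f := E) (fun _ _ => Nat.zero_le _) (Finset.mem_univ i)
      simp only [D, if_neg h1, if_neg h2]
      omega
  obtain ⟨j, hj⟩ := hom_rel k (fun i => (til α (f i)).coeff 0) D h23 hm2 D2.symm
    (fun i => by simpa using (hOk i).le 0) (fun i hi => by
      simp only [D, if_neg hi, if_neg h23.symm, if_neg h13.symm]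
      split_ifs <;> omega) s0 (hf.cond_le hs0)
  set u := s0 ^ j * s0 ^ 2 with hu
  have hle : Ideal.span {C (s0 ^ 2)} ≤ cond α ^ 2 := by
    rw [Ideal.span_le]
    rintro _ rfl
    rw [map_pow]
    exact Ideal.pow_mem_pow hs0 2
  obtain ⟨f', hf', ht⟩ := hf.change hα (fun i => wh u e (D i) (til α (f i)))
    (by simpa [coeff_wh] using (hj (s0 ^ 2)).mono hle) fun i =>
      Ideal.map_mono ((Ideal.span_singleton_le_span_singleton.2
        ⟨C (s0 ^ j), by rw [hu, map_mul, mul_comm]⟩).trans hle) (wh_sub (hOk i) u)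
  have c1 : (til α (f' i1)).natDegree ≤ m := by
    rw [natDegree_le_iff_coeff_eq_zero]
    intro N hN
    rw [ht, coeff_wh, coeff_eq_zero_of_natDegree_lt hN, sbs, hg_zero]
  have c2 : (til α (f' i1)).coeff m = 1 := by
    rw [ht, coeff_wh, D1, hm, hmon.coeff_natDegree]
    simp [sbs, hg]
  refine ⟨f', hf', monic_of_natDegree_le_of_coeff_eq_one m c1 c2,
    natDegree_eq_of_le_of_coeff_ne_zero c1 (by rw [c2]; exact one_ne_zero), fun χ hχ h2 => ?_⟩
  simp only [ht] at h2
  have hl : 1 - χ (C (C u)) ≠ 0 := by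
    intro hl
    have hu1 : χ (C (C u)) = 1 := (sub_eq_zero.1 hl).symm
    have h3 := h2 i1
    rw [chi_wh, hl, hu1, ← hm, Finset.sum_range_succ, Finset.sum_eq_zero, D1, hm,
      hmon.coeff_natDegree] at h3
    · have hz : χ X = 0 := by
        simp only [hg_zero_left, Nat.sub_self, coeff_one_zero, map_one, pow_zero, one_mul,
          zero_add] at h3
        exact eq_zero_of_pow_eq_zero h3
      have h4 := h2 i2
      rw [chi_wh, hl, hu1, hz, Finset.sum_range_succ', Finset.sum_eq_zero (by simp), D2] at h4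
      simp [hg_zero_left, hm2.coeff_natDegree] at h4
    · intro j hj
      rw [hg_zero_left, D1, coeff_eq_zero_of_natDegree_lt (hlt j (Finset.mem_range.1 hj))]
      simp
  set χ' := eval₂RingHom (eval₂RingHom (χ.comp (C.comp C))
      (χ (C X) + χ (C (C u)) / (1 - χ (C (C u))))) (χ X / (1 - χ (C (C u))) ^ e) with hχ'
  have hCC : ∀ a, χ' (C (C a)) = χ (C (C a)) := fun a => by simp [hχ']
  have h3 : ∀ i, χ' (til α (f i)) = 0 := by
    intro i
    have := h2 i
    rw [wh_eval (hOk i) u χ hl] at this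
    exact (mul_eq_zero.1 this).resolve_left (pow_ne_zero _ hl)
  rcases hs0' χ' h3 with h4 | h4
  · have h5 : χ (C (C u)) = 0 := by
      have h7 : χ (C (C s0)) = 0 := by rw [← hCC s0, h4 _ hs0]
      simp [hu, h7]
    have h6 : χ' = χ := by
      refine Polynomial.ringHom_ext' (Polynomial.ringHom_ext' ?_ ?_) ?_
      · exact RingHom.ext hCC
      · simp [hχ', h5]
      · simp [hχ', h5]
    rw [h6] at h3 h4
    exact hres χ hχ (fun s hs => h4 _ hs) h3
  · exfalso
    apply hl
    rw [hCC] at h4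
    simp [hu, h4]

omit [IsDomain B0] [DecidableEq ι] in
theorem step_six [IsNoetherianRing A] [Algebra.FiniteType k A]
    (hαk : ∀ c : k, α (algebraMap k _ c) = algebraMap k _ c) (ρ : B0[X] →+* A[X])
    (hρ : ∀ β, α (ρ β) = β) (hρk : ∀ c : k, ρ (algebraMap k _ c) = algebraMap k _ c)
    {f : ι → A[X]} (hf : Gen α f) {i1 : ι} (hmon : (f i1).Monic)
    (hfin : ∀ χ : B0[X][X] →+* Ω, Pt k χ → (∀ i, χ (til α (f i)) = 0) →
      ∀ x, α x = 0 → χ (tau α x) = 0) :
    ∃ g : ι → A[X], Ideal.span (Set.range g) = RingHom.ker α := by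
  set I := RingHom.ker α with hI
  have h1 : I ≤ (Ideal.span (Set.range f) ⊔ (I.comap C).map C).radical := by
    intro x hx
    refine nss Ω k _ x fun P hP h0 => ?_
    obtain ⟨Q, hQ, hQ'⟩ := lying_over C I (int_one hmon (hf.1 i1)) (P.comp C) fun a ha =>
      h0 _ (Ideal.mem_sup_right (Ideal.mem_map_of_mem _ ha))
    have hy : ∀ r, Q (ρ (α r)) = Q r := by
      intro r
      have := hQ (r - ρ (α r)) (by rw [hI, RingHom.mem_ker, map_sub, hρ, sub_self])
      rw [map_sub, sub_eq_zero] at this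
      exact this.symm
    let χ : B0[X][X] →+* Ω := eval₂RingHom (Q.comp ρ) (P X - Q X)
    have hχ : χ.comp (tau α) = P := by
      refine Polynomial.ringHom_ext' (RingHom.ext fun a => ?_) ?_
      · simpa [χ, hy] using RingHom.congr_fun hQ' a
      · simp [χ, hy]
    have hpt : Pt k χ := fun c => by
      rw [← hP c, Polynomial.algebraMap_apply, Polynomial.algebraMap_apply (R := k) (A := A)]
      simp only [χ, coe_eval₂RingHom, eval₂_C, RingHom.comp_apply, hρk]
      exact RingHom.congr_fun hQ' (algebraMap k A c)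
    rw [← hχ, RingHom.comp_apply]
    by_cases hz : χ X = 0
    · rw [tau_til' hx, map_mul, hz, zero_mul]
    · refine hfin χ hpt (fun i => ?_) x hx
      have := h0 (f i) (Ideal.mem_sup_left (Ideal.subset_span ⟨i, rfl⟩))
      rw [← hχ, RingHom.comp_apply, tau_til' (hf.1 i), map_mul] at this
      exact (mul_eq_zero.1 this).resolve_left hz
  obtain ⟨j, hj⟩ := Ideal.exists_pow_le_of_le_radical_of_fg h1 (IsNoetherian.noetherian I)
  obtain ⟨g, hg, -⟩ := mandal I f i1 hmon hf.1 (by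
    refine (le_sup_pow hf.2 j).trans (sup_le le_sup_left ?_)
    rw [pow_succ]
    refine (Ideal.mul_mono_left hj).trans ?_
    rw [Ideal.sup_mul]
    exact sup_le_sup_right Ideal.mul_le_left _)
  exact ⟨g, hg⟩

theorem core_ms [Uncountable k] [Algebra.FiniteType k A] [Algebra.FiniteType k B0]
    (hαk : ∀ c : k, α (algebraMap k _ c) = algebraMap k _ c) (ρ : B0[X] →+* A[X])
    (hρ : ∀ β, α (ρ β) = β) (hρk : ∀ c : k, ρ (algebraMap k _ c) = algebraMap k _ c) {δ : ℕ}
    (hι : δ + 3 ≤ Fintype.card ι) {ε : ι → A[X]} (hε : Gen α ε) {f0 : A[X]} (hf0 : f0.Monic)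
    (hf0' : α f0 = 0) {i1 : ι} {γ : B0[X]} (hγ : γ ∈ cond α ^ 2)
    (hγ' : (γ * α (derivative (ε i1))).Monic)
    (hD : Small δ {χ : B0[X] →+* Ω | Pt k χ ∧ ∀ a ∈ cond α, χ a = 0}) :
    ∃ g : ι → A[X], Ideal.span (Set.range g) = RingHom.ker α := by
  haveI : IsNoetherianRing A := Algebra.FiniteType.isNoetherianRing k A
  haveI : Nontrivial A := (α.comp C).domain_nontrivial
  have hα : Function.Surjective α := fun β => ⟨ρ β, hρ β⟩
  obtain ⟨i2, i3, h12, h13, h23⟩ : ∃ i2 i3, i1 ≠ i2 ∧ i1 ≠ i3 ∧ i2 ≠ i3 := by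
    have : 1 < (Finset.univ.erase i1).card := by
      rw [Finset.card_erase_of_mem (by simp), Finset.card_univ]; omega
    obtain ⟨a, ha, b, hb, hab⟩ := Finset.one_lt_card.1 this
    exact ⟨a, b, (Finset.ne_of_mem_erase ha).symm, (Finset.ne_of_mem_erase hb).symm, hab⟩
  set F := ε i1 + f0 ^ 2 * X ^ ((ε i1).natDegree + 1) with hF
  have hFm : F.Monic := by
    refine ((hf0.pow 2).mul (monic_X_pow _)).add_of_right (degree_lt_degree ?_)
    rw [(hf0.pow 2).natDegree_mul (monic_X_pow _), natDegree_X_pow]; omega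
  have hFs : F - ε i1 ∈ RingHom.ker α ^ 2 := by
    rw [hF, add_sub_cancel_left]
    exact Ideal.mul_mem_right _ _ (Ideal.pow_mem_pow hf0' 2)
  have g1 : Gen α (Function.update ε i1 F) := hε.congr fun i => by
    by_cases h : i = i1
    · rw [h, Function.update_self]; exact hFs
    · simp [h]
  have hF0 : α F = 0 := by simpa using g1.1 i1
  obtain ⟨t1, t2⟩ := tau_monic (α := α) hFm
  rw [tau_til' hF0] at t1 t2
  have hw : (til α F).Monic := monic_X.of_mul_monic_left t1
  have hd : (til α F).coeff 0 = α (derivative (ε i1)) := by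
    have := der_sq hFs
    rw [map_sub, map_sub, sub_eq_zero] at this
    rw [til_coeff_zero, this]
  obtain ⟨e, he⟩ := exists_ok 0 (til α F)
  obtain ⟨f2, P, g2, a1, a2, a3, a4, a5⟩ := step_two hα g1 h12 (by simpa using hw) hγ
    (by simpa [hd] using hγ') (e + 1)
  rw [Function.update_self] at a1
  obtain ⟨f3, g3, b1, b2, b3⟩ := step_three k Ω hαk hι g2 h12 (a1 ▸ hw) a4 a5 hγ'
    (Ideal.mul_mem_right _ _ (Ideal.pow_le_self two_ne_zero hγ)) hD
  rw [← b1] at a1 a5
  rw [← b2] at a2 a3 a5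
  obtain ⟨s0, hs0, hs0'⟩ := step_four k Ω g3 (a1 ▸ hw) a4 a5 b3
  obtain ⟨f4, g4, c1, c2, c3⟩ := step_five k Ω hα g3 h12 h13 h23 (a1 ▸ hw) (e := e + 1)
    (fun j => by rw [a1]; have := he.le j; omega) a2 a3 b3 hs0 hs0'
  obtain ⟨q, hq, hq'⟩ := make_monic (α := α) hFm (x := f4 i1)
    (by rw [tau_til' (g4.1 i1)]; exact monic_X.mul c1) (by
      rw [tau_til' (g4.1 i1), ← t2, monic_X.natDegree_mul c1, monic_X.natDegree_mul hw, c2, a1])
  have hq0 : α q = 0 := by rw [← tau_coeff_zero, hq, coeff_zero]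
  have g5 : Gen α (Function.update f4 i1 (f4 i1 - q * F)) := g4.congr fun i => by
    by_cases h : i = i1
    · rw [h, Function.update_self, sub_sub_cancel_left]
      exact neg_mem (mul_mem_sq hq0 hF0)
    · simp [h]
  refine step_six k Ω hαk ρ hρ hρk g5 (i1 := i1) (by simpa using hq') fun χ hχ h => c3 χ hχ
    fun i => ?_
  have := h i
  by_cases h1 : i = i1
  · rw [h1, Function.update_self, til, map_sub, map_mul, hq, zero_mul, sub_zero] at this
    rw [h1]; exact this
  · rwa [Function.update_of_ne h1] at this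

end Pool.Agent.P.MP_e35cb8_ag.Ms
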