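import Pool.Agent.P.MP_e35cb8_ag.Ms.Eps

/-!
Division of the elements of the kernel by the linear factor, and weighted homogenisation.
-/

set_option autoImplicit false

namespace Pool.Agent.P.MP_e35cb8_ag.Ms

open Polynomial

section til

variable {A B : Type*} [CommRing A] [CommRing B] (α : A[X] →+* B)

/-- expansion at the point `α X` -/
noncomputable def tau : A[X] →+* B[X] := eval₂RingHom (C.comp (α.comp C)) (X + C (α X))

@[simp] theorem tau_C (a : A) : tau α (C a) = C (α (C a)) := by simp [tau]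

@[simp] theorem tau_X : tau α X = X + C (α X) := by simp [tau]

theorem tau_eq (x : A[X]) : tau α x = taylor (α X) (x.map (α.comp C)) := by
  rw [taylor_apply, comp, eval₂_map]; rfl

theorem eval_map_self (x : A[X]) : (x.map (α.comp C)).eval (α X) = α x := by
  rw [eval_map, ← hom_eval₂, eval₂_C_X]

theorem tau_coeff_zero (x : A[X]) : (tau α x).coeff 0 = α x := by
  rw [tau_eq, taylor_coeff_zero, eval_map_self]

/-- the divided difference -/
noncomputable def til (x : A[X]) : B[X] := divX (tau α x)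

theorem tau_til (x : A[X]) : tau α x = X * til α x + C (α x) := by
  rw [til, ← tau_coeff_zero α x, X_mul_divX_add]

theorem til_coeff_zero (x : A[X]) : (til α x).coeff 0 = α (derivative x) := by
  rw [til, coeff_divX, zero_add, tau_eq, taylor_coeff_one, derivative_map, eval_map_self]

variable {α}

theorem tau_til' {x : A[X]} (h : α x = 0) : tau α x = X * til α x := by
  rw [tau_til, h, map_zero, add_zero]

theorem til_of {x : A[X]} {w : B[X]} (h : tau α x = X * w) : α x = 0 ∧ til α x = w := by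
  constructor
  · rw [← tau_coeff_zero, h]; simp
  · ext j
    rw [til, coeff_divX, h, coeff_X_mul]

theorem cond_lift {γ : B} (h : γ ∈ cond α) (ζ : B[X]) : ∃ x, tau α x = C γ * ζ := by
  induction ζ using Polynomial.induction_on generalizing γ with
  | C b =>
    obtain ⟨c, hc⟩ := h b
    exact ⟨C c, by rw [tau_C, hc, map_mul]⟩
  | add p q hp hq =>
    obtain ⟨x, hx⟩ := hp h
    obtain ⟨y, hy⟩ := hq h
    exact ⟨x + y, by rw [map_add, hx, hy, mul_add]⟩
  | monomial n b ih =>
    obtain ⟨x, hx⟩ := ih h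
    obtain ⟨y, hy⟩ := ih ((cond α).mul_mem_right (α X) h)
    refine ⟨X * x - y, ?_⟩
    rw [map_sub, map_mul, hx, hy, tau_X, map_mul]; ring

theorem cond_lift' {a : B[X]} (h : a ∈ (cond α).map C) (ζ : B[X]) : ∃ x, tau α x = a * ζ := by
  induction h using Submodule.span_induction generalizing ζ with
  | mem a ha =>
    obtain ⟨γ, hγ, rfl⟩ := ha
    exact cond_lift hγ ζ
  | zero => exact ⟨0, by simp⟩
  | add a b _ _ ha hb =>
    obtain ⟨x, hx⟩ := ha ζ
    obtain ⟨y, hy⟩ := hb ζ
    exact ⟨x + y, by rw [map_add, hx, hy, add_mul]⟩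
  | smul r a _ ha =>
    obtain ⟨x, hx⟩ := ha (r * ζ)
    exact ⟨x, by rw [hx, smul_eq_mul]; ring⟩

theorem sq_lift {ζ : B[X]} (h : ζ ∈ (cond α ^ 2).map C) :
    ∃ x ∈ RingHom.ker α ^ 2, tau α x = X * (X * ζ) := by
  rw [Ideal.map_pow, pow_two] at h
  refine Submodule.mul_induction_on h ?_ ?_
  · intro a ha b hb
    obtain ⟨x, hx⟩ := cond_lift' ha X
    obtain ⟨y, hy⟩ := cond_lift' hb X
    refine ⟨x * y, mul_mem_sq (til_of (hx.trans (mul_comm _ _))).1
      (til_of (hy.trans (mul_comm _ _))).1, ?_⟩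
    rw [map_mul, hx, hy]; ring
  · rintro a b ⟨x, hx, hx'⟩ ⟨y, hy, hy'⟩
    exact ⟨x + y, add_mem hx hy, by rw [map_add, hx', hy']; ring⟩

variable {ι : Type*}

variable (α) in
/-- the family `f` generates the kernel modulo its square -/
def Gen (f : ι → A[X]) : Prop :=
  (∀ i, α (f i) = 0) ∧ RingHom.ker α ≤ Ideal.span (Set.range f) ⊔ RingHom.ker α ^ 2

theorem Gen.of_mem {f f' : ι → A[X]} (h : Gen α f) (h1 : ∀ i, α (f' i) = 0)
    (h2 : ∀ i, f i ∈ Ideal.span (Set.range f') ⊔ RingHom.ker α ^ 2) : Gen α f' :=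
  ⟨h1, h.2.trans (sup_le (Ideal.span_le.2 (by rintro _ ⟨i, rfl⟩; exact h2 i)) le_sup_right)⟩

theorem Gen.congr {f f' : ι → A[X]} (h : Gen α f) (h1 : ∀ i, f' i - f i ∈ RingHom.ker α ^ 2) :
    Gen α f' := by
  refine h.of_mem (fun i => ?_) fun i => ?_
  · have : α _ = 0 := Ideal.pow_le_self two_ne_zero (h1 i)
    rwa [map_sub, h.1, sub_zero] at this
  · exact mem2 (Ideal.mem_sup_left (Ideal.subset_span ⟨i, rfl⟩)) (Ideal.mem_sup_right (h1 i))
      1 (-1) (by ring)

theorem Gen.cond_le {f : ι → A[X]} (h : Gen α f) :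
    cond α ≤ Ideal.span (Set.range fun i => (til α (f i)).coeff 0) := by
  intro γ hγ
  obtain ⟨c, e, hc, hn⟩ := lin_of_cond hγ
  obtain ⟨y, hy, z, hz, hyz⟩ := Submodule.mem_sup.1 (h.2 hn)
  have h1 : α y = 0 ∧ α (derivative y) ∈
      Ideal.span (Set.range fun i => (til α (f i)).coeff 0) := by
    clear hyz
    induction hy using Submodule.span_induction with
    | mem a ha =>
      obtain ⟨i, rfl⟩ := ha
      exact ⟨h.1 i, Ideal.subset_span ⟨i, til_coeff_zero α _⟩⟩
    | zero => simp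
    | add a b _ _ ha hb =>
      exact ⟨by rw [map_add, ha.1, hb.1, add_zero], by
        rw [map_add, map_add]; exact add_mem ha.2 hb.2⟩
    | smul r a _ ha =>
      exact ⟨by rw [smul_eq_mul, map_mul, ha.1, mul_zero], by
        rw [smul_eq_mul, der_mul ha.1]; exact Ideal.mul_mem_left _ _ ha.2⟩
  rw [← hc, ← der_lin α c e, ← hyz, map_add, map_add, der_sq hz, add_zero]
  exact h1.2

theorem Gen.exists_s [IsNoetherianRing A] {f : ι → A[X]} (h : Gen α f) :
    ∃ s, α s = 0 ∧ ∀ x, α x = 0 → (1 - s) * x ∈ Ideal.span (Set.range f) := by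
  obtain ⟨r, hr, hr'⟩ := Submodule.exists_sub_one_mem_and_smul_le_of_fg_of_le_sup
    (I := RingHom.ker α) (N := Ideal.span (Set.range f)) (N' := RingHom.ker α)
    (P := RingHom.ker α) (IsNoetherian.noetherian _) le_rfl (by have := h.2; rwa [pow_two] at this)
  refine ⟨1 - r, ?_, fun x hx => ?_⟩
  · have : α _ = 0 := hr
    rw [← neg_sub, map_neg, this, neg_zero]
  · rw [sub_sub_cancel]
    exact hr' (Submodule.smul_mem_pointwise_smul x r _ hx)

theorem Gen.change [Fintype ι] [DecidableEq ι] {f : ι → A[X]} (h : Gen α f)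
    (hα : Function.Surjective α) (w : ι → B[X])
    (h1 : Rel (cond α ^ 2) (fun i => (til α (f i)).coeff 0) fun i => (w i).coeff 0)
    (h2 : ∀ i, w i - til α (f i) ∈ (cond α ^ 2).map C) :
    ∃ f', Gen α f' ∧ ∀ i, til α (f' i) = w i := by
  obtain ⟨M, M', hM, hMc, hMv⟩ := h1.mat
  choose a ha using fun i j => Ideal.pow_le_self two_ne_zero (hMc i j) 1
  simp only [mul_one] at ha
  let η : ι → B[X] := fun i => w i - til α (f i) - ∑ j, C (α (C (a i j))) * til α (f j)
  have hη : ∀ i, η i = X * divX (η i) := by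
    intro i
    have h0 : (η i).coeff 0 = 0 := by
      have := congrFun hMv i
      simp only [Matrix.mulVec, dotProduct] at this
      simp only [η, coeff_sub, finsetSum_coeff, coeff_C_mul, ha, sub_mul, Finset.sum_sub_distrib,
        this, Matrix.one_apply, ite_mul, one_mul, zero_mul, Finset.sum_ite_eq, Finset.mem_univ,
        if_true, sub_self]
    conv_lhs => rw [← X_mul_divX_add (η i), h0, map_zero, add_zero]
  have hη' : ∀ i, divX (η i) ∈ (cond α ^ 2).map C := by
    intro i
    have : η i ∈ (cond α ^ 2).map C := sub_mem (h2 i) (sum_mem fun j _ =>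
      Ideal.mul_mem_right _ _ (Ideal.mem_map_of_mem _ (ha i j ▸ hMc i j)))
    rw [Ideal.mem_map_C_iff] at this ⊢
    exact fun n => by rw [coeff_divX]; exact this _
  choose x hx hx' using fun i => sq_lift (hη' i)
  let f' : ι → A[X] := fun i => f i + ∑ j, C (a i j) * f j + x i
  have hf' : ∀ i, tau α (f' i) = X * w i := by
    intro i
    simp only [f', map_add, map_sum, map_mul, tau_C, hx', ← hη, tau_til' (h.1 _)]
    simp only [η, mul_sub, Finset.mul_sum, mul_left_comm X]
    ring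
  refine ⟨f', h.of_mem (fun i => (til_of (hf' i)).1) fun l => ?_, fun i => (til_of (hf' i)).2⟩
  choose m hm using fun i => hα (M' l i)
  let c : ι → A[X] := fun j => m j + ∑ i, m i * C (a i j) - if l = j then 1 else 0
  have hc : ∀ j, α (c j) = 0 := by
    intro j
    have := congrFun (congrFun hM l) j
    simp only [Matrix.mul_apply, Matrix.one_apply] at this
    simp only [c, map_sub, map_add, map_sum, map_mul, hm, ha, mul_sub, Finset.sum_sub_distrib, this,
      Matrix.one_apply, mul_ite, mul_one, mul_zero, Finset.sum_ite_eq', Finset.mem_univ, if_true]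
    split_ifs <;> simp
  have e : f l = ∑ i, m i * f' i - (∑ j, c j * f j + ∑ i, m i * x i) := by
    simp only [f', c, mul_add, add_mul, sub_mul, Finset.sum_add_distrib, Finset.sum_sub_distrib,
      Finset.mul_sum, Finset.sum_mul, ite_mul, one_mul, zero_mul, Finset.sum_ite_eq,
      Finset.mem_univ, if_true, mul_assoc]
    rw [Finset.sum_comm (f := fun i j => m i * (C (a i j) * f j))]
    ring
  rw [e]
  exact sub_mem (Ideal.mem_sup_left (sum_mem fun i _ =>
    Ideal.mul_mem_left _ _ (Ideal.subset_span ⟨i, rfl⟩))) (Ideal.mem_sup_right (add_mem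
      (sum_mem fun j _ => mul_mem_sq (hc j) (h.1 j))
      (sum_mem fun i _ => Ideal.mul_mem_left _ _ (hx i))))

theorem tau_monic [Nontrivial B] {F : A[X]} (hF : F.Monic) :
    (tau α F).Monic ∧ (tau α F).natDegree = F.natDegree := by
  rw [tau_eq, Monic, leadingCoeff_taylor, natDegree_taylor]
  exact ⟨hF.map _, hF.natDegree_map _⟩

theorem make_monic [Nontrivial B] {F x : A[X]} (hF : F.Monic) (hx : (tau α x).Monic)
    (hd : (tau α x).natDegree = F.natDegree) : ∃ q, tau α q = 0 ∧ (x - q * F).Monic := by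
  haveI : Nontrivial A := (α.comp C).domain_nontrivial
  rw [tau_eq, Monic, leadingCoeff_taylor] at hx
  rw [tau_eq, natDegree_taylor] at hd
  refine ⟨(x - X ^ F.natDegree) /ₘ F, ?_, ?_⟩
  · rw [tau_eq, taylor_eq_zero, map_divByMonic _ hF, divByMonic_eq_zero_iff (hF.map _),
      Polynomial.map_sub, Polynomial.map_pow, map_X]
    have h1 : (x.map (α.comp C)).degree = (X ^ F.natDegree : B[X]).degree := by
      rw [degree_X_pow, degree_eq_natDegree (Monic.ne_zero hx), hd]
    refine (degree_sub_lt_left h1 (Monic.ne_zero hx) (by rw [hx, leadingCoeff_X_pow])).trans_eq ?_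
    rw [h1, degree_X_pow, hF.degree_map, degree_eq_natDegree hF.ne_zero]
  · have e : x - (x - X ^ F.natDegree) /ₘ F * F = X ^ F.natDegree + (x - X ^ F.natDegree) %ₘ F := by
      have := modByMonic_add_div (x - X ^ F.natDegree) F
      linear_combination -this
    rw [e]
    refine (monic_X_pow _).add_of_left ?_
    rw [degree_X_pow, ← degree_eq_natDegree hF.ne_zero]
    exact degree_modByMonic_lt _ hF

end til

section wh

variable {B0 : Type*} [CommRing B0]

/-- weighted homogenisation followed by the substitution with parameter `u` -/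
noncomputable def wh (u : B0) (e D : ℕ) (ζ : B0[X][X]) : B0[X][X] :=
  ∑ j ∈ Finset.range (ζ.natDegree + 1), monomial j (sbs u (D - e * j) (ζ.coeff j))

theorem coeff_wh (u : B0) (e D : ℕ) (ζ : B0[X][X]) (j : ℕ) :
    (wh u e D ζ).coeff j = sbs u (D - e * j) (ζ.coeff j) := by
  simp only [wh, finsetSum_coeff, coeff_monomial, Finset.sum_ite_eq', Finset.mem_range]
  split_ifs with h
  · rfl
  · rw [coeff_eq_zero_of_natDegree_lt (by omega), sbs, hg_zero]

/-- the weighted degree of `ζ` is at most `D` -/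
def Ok (e D : ℕ) (ζ : B0[X][X]) : Prop :=
  ∀ j, ζ.coeff j ≠ 0 → (ζ.coeff j).natDegree + e * j ≤ D

theorem Ok.le {e D : ℕ} {ζ : B0[X][X]} (h : Ok e D ζ) (j : ℕ) :
    (ζ.coeff j).natDegree ≤ D - e * j := by
  by_cases h0 : ζ.coeff j = 0
  · simp [h0]
  · have := h j h0; omega

theorem Ok.mono {e D D' : ℕ} {ζ : B0[X][X]} (h : Ok e D ζ) (h' : D ≤ D') : Ok e D' ζ :=
  fun j hj => (h j hj).trans h'

theorem exists_ok (e : ℕ) (ζ : B0[X][X]) : ∃ D, Ok e D ζ :=
  ⟨∑ j ∈ ζ.support, ((ζ.coeff j).natDegree + e * j), fun j hj =>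
    Finset.single_le_sum (f := fun j => (ζ.coeff j).natDegree + e * j) (fun _ _ => Nat.zero_le _)
      (mem_support_iff.2 hj)⟩

theorem wh_sub {e D : ℕ} {ζ : B0[X][X]} (h : Ok e D ζ) (u : B0) :
    wh u e D ζ - ζ ∈ (Ideal.span {C u}).map C := by
  rw [Ideal.mem_map_C_iff]
  intro j
  rw [coeff_sub, coeff_wh]
  exact sbs_sub (h.le j) u

variable {Ω : Type*} [Field Ω]

theorem chi_wh (χ : B0[X][X] →+* Ω) (u : B0) (e D : ℕ) (ζ : B0[X][X]) :
    χ (wh u e D ζ) = ∑ j ∈ Finset.range (ζ.natDegree + 1),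
      hg (χ.comp (C.comp C)) (D - e * j) (ζ.coeff j) (1 - χ (C (C u)))
        ((1 - χ (C (C u))) * χ (C X) + χ (C (C u))) * χ X ^ j := by
  rw [wh, map_sum]
  refine Finset.sum_congr rfl fun j _ => ?_
  rw [← C_mul_X_pow_eq_monomial, map_mul, map_pow]
  congr 1
  have := hg_map (χ.comp C) C (D - e * j) (ζ.coeff j) (1 - C u) ((1 - C u) * X + C u)
  simpa [sbs, RingHom.comp_assoc] using this

theorem wh_eval {e D : ℕ} {ζ : B0[X][X]} (h : Ok e D ζ) (u : B0) (χ : B0[X][X] →+* Ω)
    (hl : 1 - χ (C (C u)) ≠ 0) :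
    χ (wh u e D ζ) = (1 - χ (C (C u))) ^ D * eval₂RingHom (eval₂RingHom (χ.comp (C.comp C))
      (χ (C X) + χ (C (C u)) / (1 - χ (C (C u))))) (χ X / (1 - χ (C (C u))) ^ e) ζ := by
  rw [chi_wh, coe_eval₂RingHom, eval₂_eq_sum_range, Finset.mul_sum]
  refine Finset.sum_congr rfl fun j _ => ?_
  set l := 1 - χ (C (C u))
  have e1 : l * χ (C X) + χ (C (C u)) = l * (χ (C X) + χ (C (C u)) / l) := by field_simp
  rw [e1, hg_eval _ (h.le j), coe_eval₂RingHom]
  by_cases h0 : ζ.coeff j = 0
  · simp [h0]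
  · have h1 : e * j ≤ D := by have := h j h0; omega
    rw [← pow_sub_mul_pow l h1, div_pow, ← pow_mul]
    field_simp

theorem monic_eval [Nontrivial B0] {p : B0[X][X]} (hp : p.Monic) {G : B0[X]} (hG : G.Monic)
    (h : ∀ j, (p.coeff j).natDegree < G.natDegree) : (p.eval G).Monic := by
  rw [eval_eq_sum_range, Finset.sum_range_succ, hp.coeff_natDegree, one_mul]
  refine (hG.pow _).add_of_right ?_
  refine (degree_sum_le _ _).trans_lt ?_
  rw [Finset.sup_lt_iff (bot_lt_iff_ne_bot.2 (degree_ne_bot.2 (hG.pow _).ne_zero))]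
  intro j hj
  refine degree_lt_degree (natDegree_mul_le.trans_lt ?_)
  rw [hG.natDegree_pow, hG.natDegree_pow]
  have h1 := h j
  have h2 := Nat.mul_le_mul_right G.natDegree (Nat.succ_le_of_lt (Finset.mem_range.1 hj))
  rw [Nat.succ_mul] at h2
  omega

end wh

end Pool.Agent.P.MP_e35cb8_ag.Ms
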